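import Mathlib

/-!
# The monodromy filtration
-/

set_option autoImplicit false
set_option linter.unusedSectionVars false

namespace Pool.Agent.V8H91.MW

open Module

variable {Ω : Type*} [Field Ω] {V : Type*} [AddCommGroup V] [Module Ω V]

/-- `Fil` is the monodromy filtration of `N`: increasing, exhaustive and separated (the spaces are
finite dimensional), `N Fil_s ⊆ Fil_{s-2}`, and `N ^ j` induces an isomorphism
`gr_j → gr_{-j}` for `j ≥ 0`. -/
structure IsMonodromyFiltration (N : Module.End Ω V) (Fil : ℤ → Submodule Ω V) : Prop where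
  mono : Monotone Fil
  exhaustive : ∃ b, Fil b = ⊤
  separated : ∃ a, Fil a = ⊥
  shift : ∀ s, ∀ x ∈ Fil s, N x ∈ Fil (s - 2)
  inj : ∀ j : ℕ, ∀ x ∈ Fil j, (N ^ j) x ∈ Fil (-j - 1) → x ∈ Fil (j - 1)
  surj : ∀ j : ℕ, ∀ y ∈ Fil (-j), ∃ x ∈ Fil j, y - (N ^ j) x ∈ Fil (-j - 1)

/-- The formula for the monodromy filtration. -/
def RR (N : Module.End Ω V) (s : ℤ) : Submodule Ω V :=
  ⨆ b : ℕ, (LinearMap.ker (N ^ (s + 1 + 2 * b).toNat)).map (N ^ b)

theorem mem_RR {N : Module.End Ω V} {s : ℤ} (b k : ℕ) (hk : (k : ℤ) = s + 1 + 2 * b) {x : V}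
    (hx : (N ^ k) x = 0) : (N ^ b) x ∈ RR N s := by
  refine Submodule.mem_iSup_of_mem b ⟨x, ?_, rfl⟩
  have h : (s + 1 + 2 * b).toNat = k := by rw [← hk]; simp
  rw [h]
  exact hx

theorem RR_induction {N : Module.End Ω V} {s : ℤ} {p : V → Prop} {x : V} (hx : x ∈ RR N s)
    (mem : ∀ b k : ℕ, (k : ℤ) = s + 1 + 2 * b → ∀ x, (N ^ k) x = 0 → p ((N ^ b) x))
    (zero : p 0) (add : ∀ x y, p x → p y → p (x + y)) : p x := by
  unfold RR at hx
  refine Submodule.iSup_induction _ (motive := p) hx (fun b y hy => ?_) zero add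
  obtain ⟨z, hz, rfl⟩ := hy
  rcases le_or_gt 0 (s + 1 + 2 * (b : ℤ)) with h | h
  · exact mem b _ (by rw [Int.toNat_of_nonneg h]) z hz
  · have h1 : (s + 1 + 2 * (b : ℤ)).toNat = 0 := Int.toNat_of_nonpos h.le
    rw [h1, pow_zero] at hz
    have h2 : z = 0 := hz
    rw [h2, map_zero]
    exact zero

theorem map_RR {N : Module.End Ω V} (j : ℕ) {s : ℤ} {x : V} (hx : x ∈ RR N s) :
    (N ^ j) x ∈ RR N (s - 2 * j) := by
  refine RR_induction (p := fun x => (N ^ j) x ∈ RR N (s - 2 * j)) hx (fun b k hk x hx => ?_) ?_ ?_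
  · rw [← Module.End.mul_apply, ← pow_add]
    refine mem_RR (j + b) k ?_ hx
    push_cast
    linarith
  · rw [map_zero]; exact Submodule.zero_mem _
  · intro x y hx hy
    rw [map_add]
    exact Submodule.add_mem _ hx hy

theorem RR_stable {N g : Module.End Ω V} {a : Ω} (ha : a ≠ 0) (hg : ∀ x, N (g x) = a • g (N x))
    {s : ℤ} {x : V} (hx : x ∈ RR N s) : g x ∈ RR N s := by
  have hpow : ∀ (k : ℕ) (x : V), (N ^ k) (g x) = a ^ k • g ((N ^ k) x) := by
    intro k
    induction k with
    | zero => intro x; simp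
    | succ k ih =>
      intro x
      rw [pow_succ, Module.End.mul_apply, Module.End.mul_apply, hg, map_smul, ih, smul_smul,
        pow_succ, mul_comm]
  refine RR_induction (p := fun x => g x ∈ RR N s) hx (fun b k hk x hx => ?_) ?_ ?_
  · have h1 : g ((N ^ b) x) = (N ^ b) ((a ^ b)⁻¹ • g x) := by
      rw [map_smul, hpow, smul_smul, inv_mul_cancel₀ (pow_ne_zero _ ha), one_smul]
    rw [h1]
    refine mem_RR b k hk ?_
    rw [map_smul, hpow, hx, map_zero, smul_zero, smul_zero]
  · rw [map_zero]; exact Submodule.zero_mem _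
  · intro x y hx hy
    rw [map_add]
    exact Submodule.add_mem _ hx hy

namespace IsMonodromyFiltration

variable {N : Module.End Ω V} {Fil : ℤ → Submodule Ω V} (h : IsMonodromyFiltration N Fil)

include h in
theorem pow_shift (b : ℕ) {s : ℤ} {x : V} (hx : x ∈ Fil s) : (N ^ b) x ∈ Fil (s - 2 * b) := by
  induction b generalizing s x with
  | zero => simpa using hx
  | succ b ih =>
    rw [pow_succ, Module.End.mul_apply]
    have h1 := ih (h.shift s x hx)
    have h2 : s - 2 - 2 * (b : ℤ) = s - 2 * ((b + 1 : ℕ) : ℤ) := by push_cast; ring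
    rwa [h2] at h1

include h in
theorem ker_le (a : ℕ) {x : V} (hx : (N ^ a) x = 0) : x ∈ Fil (a - 1) := by
  obtain ⟨b, hb⟩ := h.exhaustive
  have key : ∀ t : ℕ, x ∈ Fil (a - 1 + t) → x ∈ Fil (a - 1) := by
    intro t
    induction t with
    | zero => intro h1; simpa using h1
    | succ t ih =>
      intro h1
      apply ih
      have h2 : ((a : ℤ) - 1 + ((t + 1 : ℕ) : ℤ)) = ((a + t : ℕ) : ℤ) := by push_cast; ring
      rw [h2] at h1
      have h3 := h.inj (a + t) x h1 (by
        rw [add_comm a t, pow_add, Module.End.mul_apply, hx, map_zero]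
        exact Submodule.zero_mem _)
      have h4 : ((a + t : ℕ) : ℤ) - 1 = (a : ℤ) - 1 + t := by push_cast; ring
      rwa [h4] at h3
  refine key (b - (a - 1)).toNat ?_
  have h1 : x ∈ Fil b := by rw [hb]; trivial
  refine h.mono ?_ h1
  have := Int.self_le_toNat (b - (a - 1))
  linarith

include h in
theorem RR_le (s : ℤ) {x : V} (hx : x ∈ RR N s) : x ∈ Fil s := by
  refine RR_induction (p := fun x => x ∈ Fil s) hx (fun b k hk x hx => ?_)
    (Submodule.zero_mem _) (fun x y => Submodule.add_mem _)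
  have h1 := h.pow_shift b (h.ker_le k hx)
  have h2 : (k : ℤ) - 1 - 2 * b = s := by linarith
  rwa [h2] at h1

include h in
theorem neg_eq (j : ℕ) {y : V} (hy : y ∈ Fil (-j)) : ∃ x ∈ Fil j, (N ^ j) x = y := by
  obtain ⟨a, ha⟩ := h.separated
  have key : ∀ (t j : ℕ), -(j : ℤ) ≤ a + t → ∀ y ∈ Fil (-j), ∃ x ∈ Fil j, (N ^ j) x = y := by
    intro t
    induction t with
    | zero =>
      intro j hj y hy
      have h1 : y ∈ Fil a := h.mono (by simpa using hj) hy
      rw [ha, Submodule.mem_bot] at h1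
      exact ⟨0, Submodule.zero_mem _, by rw [h1, map_zero]⟩
    | succ t ih =>
      intro j hj y hy
      obtain ⟨x₁, hx₁, h1⟩ := h.surj j y hy
      have h2 : -(j : ℤ) - 1 = -((j + 1 : ℕ) : ℤ) := by push_cast; ring
      rw [h2] at h1
      obtain ⟨z, hz, h3⟩ := ih (j + 1) (by push_cast at hj ⊢; linarith) _ h1
      refine ⟨x₁ + N z, Submodule.add_mem _ hx₁ ?_, ?_⟩
      · refine h.mono ?_ (h.shift _ z hz)
        push_cast
        linarith
      · rw [map_add, ← Module.End.mul_apply, ← pow_succ, h3]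
        abel
  exact key (-(j : ℤ) - a).toNat j (by have := Int.self_le_toNat (-(j : ℤ) - a); linarith) y hy

include h in
theorem le_RR_nat (s : ℕ) {x : V} (hx : x ∈ Fil s) : x ∈ RR N s := by
  obtain ⟨a, ha⟩ := h.separated
  have key : ∀ (t s : ℕ), -a ≤ s + 2 * t → ∀ x ∈ Fil s, x ∈ RR N s := by
    intro t
    induction t with
    | zero =>
      intro s hs x hx
      have h1 := h.pow_shift (s + 1) hx
      have h2 : (N ^ (s + 1)) x ∈ Fil a := h.mono (by push_cast at hs ⊢; linarith) h1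
      rw [ha, Submodule.mem_bot] at h2
      have h3 := mem_RR (s := (s : ℤ)) 0 (s + 1) (by push_cast; ring) h2
      simpa using h3
    | succ t ih =>
      intro s hs x hx
      have h1 := h.pow_shift (s + 1) hx
      have h2 : (s : ℤ) - 2 * ((s + 1 : ℕ) : ℤ) = -((s + 2 : ℕ) : ℤ) := by push_cast; ring
      rw [h2] at h1
      obtain ⟨z, hz, h3⟩ := h.neg_eq (s + 2) h1
      have h4 := ih (s + 2) (by push_cast at hs ⊢; linarith) z hz
      have h5 : N z ∈ RR N s := by
        have h6 := map_RR 1 h4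
        rw [pow_one] at h6
        have h7 : ((s + 2 : ℕ) : ℤ) - 2 * ((1 : ℕ) : ℤ) = s := by push_cast; ring
        rwa [h7] at h6
      have h6 : x - N z ∈ RR N s := by
        have h7 : (N ^ (s + 1)) (x - N z) = 0 := by
          rw [map_sub, ← Module.End.mul_apply (N ^ (s + 1)) N, ← pow_succ, h3, sub_self]
        have h8 := mem_RR (s := (s : ℤ)) 0 (s + 1) (by push_cast; ring) h7
        simpa using h8
      have h7 : x = (x - N z) + N z := by abel
      rw [h7]
      exact Submodule.add_mem _ h6 h5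
  exact key (-a).toNat s (by
    have := Int.self_le_toNat (-a)
    have h2 : (0 : ℤ) ≤ s := Int.natCast_nonneg s
    linarith) x hx

include h in
/-- The monodromy filtration is unique. -/
theorem eq_RR (s : ℤ) : Fil s = RR N s := by
  refine le_antisymm (fun x hx => ?_) (fun x hx => h.RR_le s hx)
  rcases Int.eq_nat_or_neg s with ⟨j, rfl | rfl⟩
  · exact h.le_RR_nat j hx
  · obtain ⟨z, hz, rfl⟩ := h.neg_eq j hx
    have h1 := map_RR j (h.le_RR_nat j hz)
    have h2 : (j : ℤ) - 2 * j = -j := by ring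
    rwa [h2] at h1

end IsMonodromyFiltration

end Pool.Agent.V8H91.MW
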