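import Mathlib
import Pool.Agent.V8H91.MW.Fil

/-!
# The monodromy-weight conjecture for representations of the Weil group: definitions

`W` is the Weil group of a local field with residue field of `q` elements and `v : W → ℤ` the
homomorphism which maps geometric Frobenius elements to `1` and inertia to `0` (written
multiplicatively, as a homomorphism to `Multiplicative ℤ`).  `Ω` is an algebraic closure of `ℚ_ℓ`.
-/

set_option autoImplicit false

namespace Pool.Agent.V8H91.MW

open Module

/-- `μ` is an algebraic number all of whose complex conjugates have absolute value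
`q ^ (w n / 2)`. -/
def IsWeil {Ω : Type*} [Field Ω] [CharZero Ω] (q : ℕ) (n w : ℤ) (μ : Ω) : Prop :=
  IsAlgebraic ℚ μ ∧ ∀ z : ℂ, Polynomial.aeval z (minpoly ℚ μ) = 0 →
    ‖z‖ = (q : ℝ) ^ ((w * n : ℝ) / 2)

variable {Ω : Type*} [Field Ω] [CharZero Ω] {V : Type*} [AddCommGroup V] [Module Ω V]
  {W : Type*} [Group W]

/-- The monodromy-weight property in degree `m`: there is a (necessarily unique) monodromy
filtration of `N`, it is stable under the group, and all eigenvalues of `g` on the graded piece of
degree `s` are algebraic numbers all of whose complex conjugates have absolute value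
`q ^ ((m + s) v(g) / 2)`. -/
def MonodromyWeight (q : ℕ) (v : W →* Multiplicative ℤ) (ρ : Representation Ω W V)
    (N : Module.End Ω V) (m : ℤ) : Prop :=
  ∃ Fil : ℤ → Submodule Ω V, IsMonodromyFiltration N Fil ∧ (∀ s g, ∀ x ∈ Fil s, ρ g x ∈ Fil s) ∧
    ∀ s g (μ : Ω), (∃ x ∈ Fil s, x ∉ Fil (s - 1) ∧ ρ g x - μ • x ∈ Fil (s - 1)) →
      IsWeil q (v g).toAdd (m + s) μ

/-- The known properties of `V = H^m(X)` for a smooth projective variety `X` over the local field
(with coefficients in an algebraic closure of `ℚ_ℓ`): the monodromy operator `N : V → V(-1)` is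
equivariant, all eigenvalues of all elements of the Weil group have integral weights between `0`
and `2 m`, and Poincaré duality together with the hard Lefschetz theorem gives a perfect
equivariant pairing `V × V → Ω(-m)` for which `N` is skew. -/
structure IsGeometric (q : ℕ) (v : W →* Multiplicative ℤ) (ρ : Representation Ω W V)
    (N : Module.End Ω V) (m : ℕ) : Prop where
  equivariant : ∀ g x, N (ρ g x) = (q : Ω) ^ (v g).toAdd • ρ g (N x)
  weights : ∀ g (μ : Ω) x, x ≠ 0 → ρ g x = μ • x →
    ∃ w : ℤ, 0 ≤ w ∧ w ≤ 2 * m ∧ IsWeil q (v g).toAdd w μ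
  duality : ∃ B : V →ₗ[Ω] V →ₗ[Ω] Ω, (∀ x, (∀ y, B x y = 0) → x = 0) ∧
    (∀ g x y, B (ρ g x) (ρ g y) = (q : Ω) ^ (m * (v g).toAdd) * B x y) ∧
    ∀ x y, B (N x) y + B x (N y) = 0

/-- The known part of the monodromy-weight conjecture (Rapoport-Zink, de Jong): `N ^ m` is
injective on the eigenvectors of weight `2 m` and `N ^ (m - 1)` is injective on the eigenvectors of
weight `2 m - 1`. -/
def KnownEdges (q : ℕ) (v : W →* Multiplicative ℤ) (ρ : Representation Ω W V)
    (N : Module.End Ω V) (m : ℕ) : Prop :=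
  ∀ g, 0 < (v g).toAdd → ∀ (μ : Ω) x, x ≠ 0 → ρ g x = μ • x →
    (IsWeil q (v g).toAdd (2 * m) μ → (N ^ m) x ≠ 0) ∧
    (1 ≤ m → IsWeil q (v g).toAdd (2 * m - 1) μ → (N ^ (m - 1)) x ≠ 0)

end Pool.Agent.V8H91.MW
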