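import Mathlib
import Pool.Agent.V8H91.MW.Defs

/-!
# Multiplicity spaces of the Jordan blocks of the monodromy operator: definitions
-/

set_option autoImplicit false

namespace Pool.Agent.V8H91.MW

open Module

variable {Ω : Type*} [Field Ω] {V : Type*} [AddCommGroup V] [Module Ω V] {W : Type*} [Group W]

/-- The subspace `ker N^{k-1} + N (ker N^{k+1})` of `ker N^k`.  The quotient
`ker N^k / (ker N^{k-1} + N (ker N^{k+1}))` is the multiplicity space of the Jordan blocks of `N`
of size `k`; its dimension is the number of Jordan blocks of size `k`. -/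
def KK (N : Module.End Ω V) (k : ℕ) : Submodule Ω V :=
  LinearMap.ker (N ^ (k - 1)) ⊔ (LinearMap.ker (N ^ (k + 1))).map N

/-- `μ` is an eigenvalue of `g` on the multiplicity space of the Jordan blocks of size `k`. -/
def JordanEigenvalue (ρ : Representation Ω W V) (N : Module.End Ω V) (k : ℕ) (g : W) (μ : Ω) :
    Prop :=
  ∃ x, (N ^ k) x = 0 ∧ x ∉ KK N k ∧ ρ g x - μ • x ∈ KK N k

/-- The multiplicity space of the Jordan blocks of size `k` is isobaric: for all elements `g` of
positive valuation all its eigenvalues have the same weight. -/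
def Isobaric [CharZero Ω] (q : ℕ) (v : W →* Multiplicative ℤ) (ρ : Representation Ω W V)
    (N : Module.End Ω V) (k : ℕ) : Prop :=
  ∀ g, 0 < (v g).toAdd → ∀ μ μ' : Ω, JordanEigenvalue ρ N k g μ → JordanEigenvalue ρ N k g μ' →
    ∀ w w' : ℤ, IsWeil q (v g).toAdd w μ → IsWeil q (v g).toAdd w' μ' → w = w'

/-- The multiplicity space of the Jordan blocks of size `k` is zero or an irreducible
representation of the group. -/
def ZeroOrIrreducible (ρ : Representation Ω W V) (N : Module.End Ω V) (k : ℕ) : Prop :=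
  ∀ U : Submodule Ω V, KK N k ≤ U → U ≤ LinearMap.ker (N ^ k) → (∀ g, ∀ x ∈ U, ρ g x ∈ U) →
    U = KK N k ∨ U = LinearMap.ker (N ^ k)

/-- Grothendieck's monodromy theorem: the elements of a subgroup of finite index of inertia act as
`exp(t N)`, `t ∈ Ω` (the sum of `t^i N^i / i!`, where `i` is smaller than the dimension of `V`). -/
def GrothendieckMonodromy (v : W →* Multiplicative ℤ) (ρ : Representation Ω W V)
    (N : Module.End Ω V) : Prop :=
  ∃ I' : Subgroup W, I' ≤ v.ker ∧ (I'.subgroupOf v.ker).FiniteIndex ∧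
    ∀ g ∈ I', ∃ t : Ω, ρ g = ∑ i ∈ Finset.range (finrank Ω V),
      (t ^ i * ((i.factorial : ℕ) : Ω)⁻¹) • N ^ i

end Pool.Agent.V8H91.MW
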