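import Mathlib

/-!
# Sums of generalized eigenspaces over sets of eigenvalues
-/

set_option autoImplicit false
set_option linter.unusedSectionVars false

namespace Pool.Agent.V8H91.MW

open Module Module.End

variable {Ω : Type*} [Field Ω] {V : Type*} [AddCommGroup V] [Module Ω V]

/-- The sum of the generalized eigenspaces of `f` for the eigenvalues in `A`. -/
def sp (f : Module.End Ω V) (A : Set Ω) : Submodule Ω V := ⨆ μ ∈ A, f.maxGenEigenspace μ

variable {f : Module.End Ω V}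

theorem gen_le_sp {A : Set Ω} {μ : Ω} (h : μ ∈ A) : f.maxGenEigenspace μ ≤ sp f A :=
  le_iSup₂_of_le μ h le_rfl

theorem sp_mono {A B : Set Ω} (h : A ⊆ B) : sp f A ≤ sp f B :=
  iSup₂_le fun _ hμ => gen_le_sp (h hμ)

theorem sp_induction {A : Set Ω} {p : V → Prop} {x : V} (hx : x ∈ sp f A)
    (mem : ∀ μ ∈ A, ∀ x ∈ f.maxGenEigenspace μ, p x) (zero : p 0)
    (add : ∀ x y, p x → p y → p (x + y)) : p x := by
  unfold sp at hx
  refine Submodule.iSup_induction _ (motive := p) hx (fun μ x hx => ?_) zero add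
  refine Submodule.iSup_induction _ (motive := p) hx (fun h x hx => ?_) zero add
  exact mem μ h x hx

theorem sp_union (A B : Set Ω) : sp f (A ∪ B) = sp f A ⊔ sp f B := iSup_union

theorem sp_disjoint {A B : Set Ω} (h : Disjoint A B) : Disjoint (sp f A) (sp f B) :=
  (independent_maxGenEigenspace f).disjoint_biSup_biSup h

theorem sp_disj {A B : Set Ω} (h : Disjoint A B) {x : V} (hA : x ∈ sp f A) (hB : x ∈ sp f B) :
    x = 0 := (Submodule.disjoint_def.1 (sp_disjoint h)) x hA hB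

theorem gen_stable {μ : Ω} {x : V} (hx : x ∈ f.maxGenEigenspace μ) :
    f x ∈ f.maxGenEigenspace μ :=
  mapsTo_maxGenEigenspace_of_comm (Commute.refl f) μ hx

theorem sp_stable {A : Set Ω} {x : V} (hx : x ∈ sp f A) : f x ∈ sp f A :=
  sp_induction (p := fun x => f x ∈ sp f A) hx (fun _ hμ _ hx => gen_le_sp hμ (gen_stable hx))
    (by rw [map_zero]; exact Submodule.zero_mem _)
    (fun x y hx hy => by rw [map_add]; exact Submodule.add_mem _ hx hy)

/-- Operators that move the generalized eigenspaces. -/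
theorem sp_map {g : Module.End Ω V} {A B : Set Ω}
    (h : ∀ μ ∈ A, ∀ x ∈ f.maxGenEigenspace μ, g x ∈ sp f B) {x : V} (hx : x ∈ sp f A) :
    g x ∈ sp f B :=
  sp_induction (p := fun x => g x ∈ sp f B) hx h
    (by rw [map_zero]; exact Submodule.zero_mem _)
    (fun x y hx hy => by rw [map_add]; exact Submodule.add_mem _ hx hy)

theorem mem_gen_of_eig {μ : Ω} {x : V} (h : f x = μ • x) : x ∈ f.maxGenEigenspace μ := by
  rw [mem_maxGenEigenspace]
  refine ⟨1, ?_⟩
  rw [pow_one, LinearMap.sub_apply, LinearMap.smul_apply, one_apply, h, sub_self]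

/-- The eigenvalue of an eigenvector in `sp f A` is in `A`. -/
theorem eig_mem_of_sp {A : Set Ω} {μ : Ω} {x : V} (h0 : x ≠ 0) (h : f x = μ • x)
    (hx : x ∈ sp f A) : μ ∈ A := by
  by_contra hμ
  apply h0
  refine sp_disj (A := {μ}) (B := A) (by simpa using hμ) ?_ hx
  exact gen_le_sp (Set.mem_singleton μ) (mem_gen_of_eig h)

section closed

variable [IsAlgClosed Ω] [FiniteDimensional Ω V]

theorem sp_univ : sp f Set.univ = ⊤ := by
  unfold sp
  simpa using iSup_maxGenEigenspace_eq_top f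

/-- A nonzero stable subspace contains an eigenvector. -/
theorem exists_eig {U : Submodule Ω V} (hU : ∀ x ∈ U, f x ∈ U) (h0 : U ≠ ⊥) :
    ∃ (μ : Ω) (x : V), x ∈ U ∧ x ≠ 0 ∧ f x = μ • x := by
  have : Nontrivial U := Submodule.nontrivial_iff_ne_bot.2 h0
  obtain ⟨μ, hμ⟩ := exists_eigenvalue (f.restrict hU)
  obtain ⟨x, hx⟩ := hμ.exists_hasEigenvector
  refine ⟨μ, x, x.2, fun h => hx.2 (Subtype.ext h), ?_⟩
  exact congrArg Subtype.val hx.apply_eq_smul

theorem sp_eq_top {A : Set Ω} (h : ∀ (μ : Ω) (x : V), x ≠ 0 → f x = μ • x → μ ∈ A) :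
    sp f A = ⊤ := by
  rw [eq_top_iff, ← sp_univ (f := f)]
  refine iSup₂_le fun μ _ => ?_
  by_cases h0 : f.maxGenEigenspace μ = ⊥
  · rw [h0]; exact bot_le
  · obtain ⟨ν, x, hx, hx0, hxe⟩ := exists_eig (fun x hx => gen_stable hx) h0
    have h1 : ν ∈ ({μ} : Set Ω) := eig_mem_of_sp hx0 hxe (gen_le_sp (Set.mem_singleton μ) hx)
    rw [Set.mem_singleton_iff] at h1
    subst h1
    exact gen_le_sp (h _ x hx0 hxe)

/-- Stable subspaces decompose. -/
theorem stable_decomp {U : Submodule Ω V} (hU : ∀ x ∈ U, f x ∈ U) (A : Set Ω) {x : V}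
    (hx : x ∈ U) : ∃ a ∈ U, a ∈ sp f A ∧ ∃ b ∈ U, b ∈ sp f Aᶜ ∧ x = a + b := by
  have h1 : U = ⨆ μ, U ⊓ f.maxGenEigenspace μ :=
    Submodule.eq_iSup_inf_genEigenspace ⊤ hU (iSup_maxGenEigenspace_eq_top f)
  have h2 : x ∈ ⨆ μ, U ⊓ f.maxGenEigenspace μ := by rwa [← h1]
  refine Submodule.iSup_induction _
    (motive := fun x => ∃ a ∈ U, a ∈ sp f A ∧ ∃ b ∈ U, b ∈ sp f Aᶜ ∧ x = a + b) h2
    (fun μ x hx => ?_) ?_ ?_
  · by_cases hμ : μ ∈ A
    · exact ⟨x, hx.1, gen_le_sp hμ hx.2, 0, U.zero_mem, Submodule.zero_mem _, (add_zero x).symm⟩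
    · exact ⟨0, U.zero_mem, Submodule.zero_mem _, x, hx.1,
        gen_le_sp (A := Aᶜ) hμ hx.2, (zero_add x).symm⟩
  · exact ⟨0, U.zero_mem, Submodule.zero_mem _, 0, U.zero_mem, Submodule.zero_mem _,
      (add_zero 0).symm⟩
  · rintro x y ⟨a, ha, ha', b, hb, hb', rfl⟩ ⟨c, hc, hc', d, hd, hd', rfl⟩
    exact ⟨a + c, U.add_mem ha hc, Submodule.add_mem _ ha' hc', b + d, U.add_mem hb hd,
      Submodule.add_mem _ hb' hd', by abel⟩

end closed

end Pool.Agent.V8H91.MW
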