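import Mathlib
import Pool.Agent.V8H91.MW.Sp
import Pool.Agent.V8H91.MW.Fil

/-!
# Weights, duality and the monodromy filtration: one element of the group
-/

set_option autoImplicit false
set_option linter.unusedSectionVars false

namespace Pool.Agent.V8H91.MW

open Module Module.End

variable {Ω : Type*} [Field Ω] {V : Type*} [AddCommGroup V] [Module Ω V]

/-- An endomorphism `f` with weights in `[0, 2 m]` (the set of eigenvalues of weight `w` is `S w`),
and an operator `N` that lowers the weight by two. -/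
structure Wt (f N : Module.End Ω V) (c : Ω) (S : ℤ → Set Ω) (m : ℤ) : Prop where
  c0 : c ≠ 0
  comm : ∀ x, N (f x) = c • f (N x)
  disj : ∀ μ w w', μ ∈ S w → μ ∈ S w' → w = w'
  shift : ∀ μ w, μ ∈ S w ↔ c⁻¹ * μ ∈ S (w - 2)
  ev : ∀ μ x, x ≠ 0 → f x = μ • x → ∃ w, 0 ≤ w ∧ w ≤ 2 * m ∧ μ ∈ S w

/-- Duality of weight `m`. -/
structure Dual (f N : Module.End Ω V) (d : Ω) (S : ℤ → Set Ω) (m : ℤ)
    (B : V →ₗ[Ω] V →ₗ[Ω] Ω) : Prop where
  zero : ∀ w, (0 : Ω) ∉ S w
  dual : ∀ μ w, μ ∈ S w → d * μ⁻¹ ∈ S (2 * m - w)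
  Bf : ∀ x y, B (f x) (f y) = d * B x y
  BN : ∀ x y, B (N x) y + B x (N y) = 0
  Bnd : ∀ x, (∀ y, B x y = 0) → x = 0

/-- The operators `N ^ j` have no kernel on the eigenvectors of weight `m + j`. -/
def Lef (f N : Module.End Ω V) (S : ℤ → Set Ω) (m : ℤ) : Prop :=
  ∀ j : ℕ, 1 ≤ j → ∀ μ ∈ S (m + j), ∀ x, x ≠ 0 → f x = μ • x → (N ^ j) x ≠ 0

section

variable {f N : Module.End Ω V} {c d : Ω} {S : ℤ → Set Ω} {m : ℤ} {B : V →ₗ[Ω] V →ₗ[Ω] Ω}

theorem Wt.N_gen (h : Wt f N c S m) {μ : Ω} {x : V} (hx : x ∈ f.maxGenEigenspace μ) :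
    N x ∈ f.maxGenEigenspace (c⁻¹ * μ) := by
  rw [mem_maxGenEigenspace] at hx ⊢
  obtain ⟨k, hk⟩ := hx
  refine ⟨k, ?_⟩
  have key : ∀ (k : ℕ) (x : V), ((f - (c⁻¹ * μ) • (1 : Module.End Ω V)) ^ k) (N x) =
      (c⁻¹) ^ k • N (((f - μ • (1 : Module.End Ω V)) ^ k) x) := by
    intro k
    induction k with
    | zero => intro x; simp
    | succ k ih =>
      intro x
      have h1 : (f - (c⁻¹ * μ) • (1 : Module.End Ω V)) (N x) =
          c⁻¹ • N ((f - μ • (1 : Module.End Ω V)) x) := by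
        rw [LinearMap.sub_apply, LinearMap.sub_apply, LinearMap.smul_apply, LinearMap.smul_apply,
          one_apply, one_apply, map_sub, map_smul, h.comm, smul_sub, smul_smul, smul_smul,
          inv_mul_cancel₀ h.c0, one_smul]
      rw [pow_succ, Module.End.mul_apply, h1, map_smul, ih, pow_succ (f - μ • 1),
        Module.End.mul_apply, smul_smul, pow_succ, mul_comm]
  rw [key, hk, map_zero, smul_zero]

theorem Wt.N_sp (h : Wt f N c S m) {w : ℤ} {x : V} (hx : x ∈ sp f (S w)) :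
    N x ∈ sp f (S (w - 2)) :=
  sp_map (fun μ hμ _ hx => gen_le_sp ((h.shift μ w).1 hμ) (h.N_gen hx)) hx

theorem Wt.N_sp_compl (h : Wt f N c S m) {w : ℤ} {x : V} (hx : x ∈ sp f (S w)ᶜ) :
    N x ∈ sp f (S (w - 2))ᶜ := by
  refine sp_map (A := (S w)ᶜ) (B := (S (w - 2))ᶜ) (fun μ hμ x hx => ?_) hx
  exact gen_le_sp (A := (S (w - 2))ᶜ) (fun h1 => hμ ((h.shift μ w).2 h1)) (h.N_gen hx)

theorem Wt.pow_sp (h : Wt f N c S m) (j : ℕ) {w : ℤ} {x : V} (hx : x ∈ sp f (S w)) :
    (N ^ j) x ∈ sp f (S (w - 2 * j)) := by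
  induction j generalizing w x with
  | zero => simpa using hx
  | succ j ih =>
    rw [pow_succ, Module.End.mul_apply]
    have h1 := ih (h.N_sp hx)
    have h2 : w - 2 - 2 * (j : ℤ) = w - 2 * ((j + 1 : ℕ) : ℤ) := by push_cast; ring
    rwa [h2] at h1

theorem Wt.pow_comm (h : Wt f N c S m) (j : ℕ) (x : V) : (N ^ j) (f x) = c ^ j • f ((N ^ j) x) := by
  induction j generalizing x with
  | zero => simp
  | succ j ih =>
    rw [pow_succ, Module.End.mul_apply, Module.End.mul_apply, h.comm, map_smul, ih, smul_smul,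
      pow_succ, mul_comm]

theorem Wt.ker_stable (h : Wt f N c S m) (j : ℕ) {x : V} (hx : (N ^ j) x = 0) :
    (N ^ j) (f x) = 0 := by
  rw [h.pow_comm, hx, map_zero, smul_zero]

theorem Wt.compl_disj {w w' : ℤ} (h : Wt f N c S m) (hne : w ≠ w') : S w ⊆ (S w')ᶜ :=
  fun μ h1 h2 => hne (h.disj μ w w' h1 h2)

/-- Orthogonality. -/
theorem Dual.orth_gen (h : Dual f N d S m B) {μ ν : Ω} (hne : μ * ν ≠ d) {x y : V}
    (hx : x ∈ f.maxGenEigenspace μ) (hy : y ∈ f.maxGenEigenspace ν) : B x y = 0 := by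
  rw [mem_maxGenEigenspace] at hx hy
  obtain ⟨a, ha⟩ := hx
  obtain ⟨b, hb⟩ := hy
  have key : ∀ (t a b : ℕ), a + b ≤ t → ∀ x y, ((f - μ • (1 : Module.End Ω V)) ^ a) x = 0 →
      ((f - ν • (1 : Module.End Ω V)) ^ b) y = 0 → B x y = 0 := by
    intro t
    induction t with
    | zero =>
      intro a b hab x y hx _
      have h1 : a = 0 := by omega
      subst h1
      have h2 : x = 0 := hx
      rw [h2, map_zero, LinearMap.zero_apply]
    | succ t ih =>
      intro a b hab x y hx hy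
      rcases Nat.eq_zero_or_pos a with h1 | h1
      · subst h1
        have h2 : x = 0 := hx
        rw [h2, map_zero, LinearMap.zero_apply]
      rcases Nat.eq_zero_or_pos b with h2 | h2
      · subst h2
        have h3 : y = 0 := hy
        rw [h3, map_zero]
      obtain ⟨a, rfl⟩ : ∃ a', a = a' + 1 := ⟨a - 1, by omega⟩
      obtain ⟨b, rfl⟩ : ∃ b', b = b' + 1 := ⟨b - 1, by omega⟩
      set x' := (f - μ • (1 : Module.End Ω V)) x with hx'
      set y' := (f - ν • (1 : Module.End Ω V)) y with hy'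
      have h3 : ((f - μ • (1 : Module.End Ω V)) ^ a) x' = 0 := by
        rw [hx', ← Module.End.mul_apply, ← pow_succ]; exact hx
      have h4 : ((f - ν • (1 : Module.End Ω V)) ^ b) y' = 0 := by
        rw [hy', ← Module.End.mul_apply, ← pow_succ]; exact hy
      have e1 : B x' y = 0 := ih a (b + 1) (by omega) x' y h3 hy
      have e2 : B x y' = 0 := ih (a + 1) b (by omega) x y' hx h4
      have e3 : B x' y' = 0 := ih a b (by omega) x' y' h3 h4
      have e4 : f x = μ • x + x' := by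
        rw [hx', LinearMap.sub_apply, LinearMap.smul_apply, one_apply]; abel
      have e5 : f y = ν • y + y' := by
        rw [hy', LinearMap.sub_apply, LinearMap.smul_apply, one_apply]; abel
      have e6 := h.Bf x y
      rw [e4, e5] at e6
      simp only [map_add, LinearMap.add_apply, map_smul, LinearMap.smul_apply, e1, e2, e3,
        smul_eq_mul, mul_zero, add_zero] at e6
      have e7 : (μ * ν - d) * B x y = 0 := by linear_combination e6
      exact (mul_eq_zero.1 e7).resolve_left (sub_ne_zero.2 hne)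
  exact key (a + b) a b le_rfl x y ha hb

theorem Dual.orth (h : Dual f N d S m B) {w : ℤ} {x y : V} (hx : x ∈ sp f (S w))
    (hy : y ∈ sp f (S (2 * m - w))ᶜ) : B x y = 0 := by
  refine sp_induction (p := fun x => B x y = 0) hx (fun μ hμ x hx => ?_)
    (by rw [map_zero, LinearMap.zero_apply])
    (fun x x' hx hx' => by rw [map_add, LinearMap.add_apply, hx, hx', add_zero])
  refine sp_induction (p := fun y => B x y = 0) hy (fun ν hν y hy => ?_)
    (by rw [map_zero]) (fun y y' hy hy' => by rw [map_add, hy, hy', add_zero])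
  refine h.orth_gen (fun he => hν ?_) hx hy
  have h1 : μ ≠ 0 := fun h0 => h.zero w (h0 ▸ hμ)
  have h2 : ν = d * μ⁻¹ := by rw [← he]; field_simp
  rw [h2]
  exact h.dual μ w hμ

theorem Dual.pow_adj (h : Dual f N d S m B) (j : ℕ) (x y : V) :
    B ((N ^ j) x) y = (-1) ^ j * B x ((N ^ j) y) := by
  induction j generalizing x y with
  | zero => simp
  | succ j ih =>
    rw [pow_succ N, Module.End.mul_apply, Module.End.mul_apply, ih, pow_succ]
    have h1 := h.BN x ((N ^ j) y)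
    have h2 : N ((N ^ j) y) = (N ^ j) (N y) := by
      rw [← Module.End.mul_apply, ← Module.End.mul_apply, ← pow_succ', pow_succ]
    rw [h2] at h1
    linear_combination (-1) ^ j * h1

end

section closed

variable [IsAlgClosed Ω] [FiniteDimensional Ω V]
variable {f N : Module.End Ω V} {c d : Ω} {S : ℤ → Set Ω} {m : ℤ} {B : V →ₗ[Ω] V →ₗ[Ω] Ω}

theorem exists_decomp (A : Set Ω) (x : V) : ∃ a ∈ sp f A, ∃ b ∈ sp f Aᶜ, x = a + b := by
  obtain ⟨a, -, ha, b, -, hb, h⟩ := stable_decomp (f := f) (U := ⊤) (fun _ _ => trivial) A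
    (x := x) trivial
  exact ⟨a, ha, b, hb, h⟩

theorem Dual.nondeg (h : Dual f N d S m B) {w : ℤ} {x : V} (hx : x ∈ sp f (S w))
    (h0 : ∀ y ∈ sp f (S (2 * m - w)), B x y = 0) : x = 0 := by
  apply h.Bnd
  intro y
  obtain ⟨a, ha, b, hb, rfl⟩ := exists_decomp (f := f) (S (2 * m - w)) y
  rw [map_add, h0 a ha, h.orth hx hb, add_zero]

theorem Dual.finrank_le (h : Dual f N d S m B) (w : ℤ) :
    finrank Ω (sp f (S w)) ≤ finrank Ω (sp f (S (2 * m - w))) := by
  let φ : sp f (S w) →ₗ[Ω] Module.Dual Ω (sp f (S (2 * m - w))) :=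
    (B.compl₁₂ (sp f (S w)).subtype (sp f (S (2 * m - w))).subtype)
  have hφ : Function.Injective φ := by
    rw [injective_iff_map_eq_zero]
    intro x hx
    refine Subtype.ext (h.nondeg x.2 fun y hy => ?_)
    exact congrArg (fun F : Module.Dual Ω (sp f (S (2 * m - w))) => F ⟨y, hy⟩) hx
  have h1 := LinearMap.finrank_le_finrank_of_injective hφ
  rwa [Subspace.dual_finrank_eq] at h1

theorem Dual.finrank_eq (h : Dual f N d S m B) (w : ℤ) :
    finrank Ω (sp f (S w)) = finrank Ω (sp f (S (2 * m - w))) := by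
  refine le_antisymm (h.finrank_le w) ?_
  have h1 := h.finrank_le (2 * m - w)
  have h2 : 2 * m - (2 * m - w) = w := by ring
  rwa [h2] at h1

/-- From eigenvectors to the sum of generalized eigenspaces. -/
theorem Wt.inj_of_eig (h : Wt f N c S m) (j : ℕ) (w : ℤ)
    (hE : ∀ μ ∈ S w, ∀ x, x ≠ 0 → f x = μ • x → (N ^ j) x ≠ 0) {x : V}
    (hx : x ∈ sp f (S w)) (h0 : (N ^ j) x = 0) : x = 0 := by
  have h1 : LinearMap.ker (N ^ j) ⊓ sp f (S w) = ⊥ := by
    by_contra hne
    obtain ⟨μ, y, hy, hy0, hye⟩ := exists_eig (f := f)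
      (U := LinearMap.ker (N ^ j) ⊓ sp f (S w)) (fun y hy =>
      ⟨h.ker_stable j hy.1, sp_stable hy.2⟩) hne
    exact hE μ (eig_mem_of_sp hy0 hye hy.2) y hy0 hye hy.1
  have h2 : x ∈ LinearMap.ker (N ^ j) ⊓ sp f (S w) := ⟨h0, hx⟩
  rwa [h1, Submodule.mem_bot] at h2

theorem Lef.inj (hL : Lef f N S m) (h : Wt f N c S m) (j : ℕ) {x : V}
    (hx : x ∈ sp f (S (m + j))) (h0 : (N ^ j) x = 0) : x = 0 := by
  rcases Nat.eq_zero_or_pos j with rfl | hj
  · simpa using h0
  · exact h.inj_of_eig j _ (fun μ hμ => hL j hj μ hμ) hx h0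

theorem Lef.surj (hL : Lef f N S m) (h : Wt f N c S m) (hd : Dual f N d S m B) (j : ℕ) {y : V}
    (hy : y ∈ sp f (S (m - j))) : ∃ x ∈ sp f (S (m + j)), (N ^ j) x = y := by
  have hmap : ∀ x ∈ sp f (S (m + j)), (N ^ j) x ∈ sp f (S (m - j)) := by
    intro x hx
    have h1 := h.pow_sp j hx
    have h2 : m + j - 2 * (j : ℤ) = m - j := by ring
    rwa [h2] at h1
  have hfin : finrank Ω (sp f (S (m + j))) = finrank Ω (sp f (S (m - j))) := by
    have h1 := hd.finrank_eq (m + j)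
    have h2 : 2 * m - (m + (j : ℤ)) = m - j := by ring
    rwa [h2] at h1
  have hinj : Function.Injective ((N ^ j).restrict hmap) := by
    rw [injective_iff_map_eq_zero]
    intro x hx
    exact Subtype.ext (hL.inj h j x.2 (congrArg Subtype.val hx))
  have hsurj := (LinearMap.injective_iff_surjective_of_finrank_eq_finrank hfin).1 hinj
  obtain ⟨x, hx⟩ := hsurj ⟨y, hy⟩
  exact ⟨x, x.2, congrArg Subtype.val hx⟩

/-- The filtration by the weights. -/
def wfil (f : Module.End Ω V) (S : ℤ → Set Ω) (m s : ℤ) : Submodule Ω V :=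
  sp f {μ | ∃ w ≤ m + s, μ ∈ S w}

theorem wfil_decomp (s : ℤ) {x : V} (hx : x ∈ wfil f S m s) :
    ∃ a ∈ sp f (S (m + s)), ∃ b ∈ wfil f S m (s - 1), x = a + b := by
  have h1 : ({μ | ∃ w ≤ m + s, μ ∈ S w} : Set Ω) =
      S (m + s) ∪ {μ | ∃ w ≤ m + (s - 1), μ ∈ S w} := by
    ext μ
    constructor
    · rintro ⟨w, hw, hμ⟩
      rcases hw.lt_or_eq with h2 | h2
      · exact Or.inr ⟨w, by omega, hμ⟩
      · exact Or.inl (h2 ▸ hμ)
    · rintro (hμ | ⟨w, hw, hμ⟩)
      · exact ⟨_, le_rfl, hμ⟩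
      · exact ⟨w, by omega, hμ⟩
  unfold wfil at hx
  rw [h1, sp_union] at hx
  obtain ⟨a, ha, b, hb, h2⟩ := Submodule.mem_sup.1 hx
  exact ⟨a, ha, b, hb, h2.symm⟩

theorem Wt.wfil_disj (h : Wt f N c S m) {s : ℤ} {x : V} (hx : x ∈ sp f (S (m + s)))
    (hx' : x ∈ wfil f S m (s - 1)) : x = 0 := by
  refine sp_disj ?_ hx hx'
  rw [Set.disjoint_left]
  rintro μ h1 ⟨w, hw, h2⟩
  have := h.disj μ _ _ h1 h2
  omega

theorem wfil_mono (s t : ℤ) (hst : s ≤ t) : wfil f S m s ≤ wfil f S m t :=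
  sp_mono fun μ ⟨w, hw, hμ⟩ => ⟨w, by omega, hμ⟩

theorem sp_le_wfil (s : ℤ) : sp f (S (m + s)) ≤ wfil f S m s :=
  sp_mono fun _ hμ => ⟨_, le_rfl, hμ⟩

theorem Wt.N_wfil (h : Wt f N c S m) {s : ℤ} {x : V} (hx : x ∈ wfil f S m s) :
    N x ∈ wfil f S m (s - 2) := by
  refine sp_map (A := {μ | ∃ w ≤ m + s, μ ∈ S w}) (B := {μ | ∃ w ≤ m + (s - 2), μ ∈ S w})
    (fun μ hμ x hx => ?_) hx
  obtain ⟨w, hw, hμ⟩ := hμ
  exact gen_le_sp (A := {μ | ∃ w ≤ m + (s - 2), μ ∈ S w})
    ⟨w - 2, by omega, (h.shift μ w).1 hμ⟩ (h.N_gen hx)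

theorem Wt.pow_wfil (h : Wt f N c S m) (j : ℕ) {s : ℤ} {x : V} (hx : x ∈ wfil f S m s) :
    (N ^ j) x ∈ wfil f S m (s - 2 * j) := by
  induction j generalizing s x with
  | zero => simpa using hx
  | succ j ih =>
    rw [pow_succ, Module.End.mul_apply]
    have h1 := ih (h.N_wfil hx)
    have h2 : s - 2 - 2 * (j : ℤ) = s - 2 * ((j + 1 : ℕ) : ℤ) := by push_cast; ring
    rwa [h2] at h1

/-- The filtration by the weights is the monodromy filtration. -/
theorem Lef.isMonodromyFiltration (hL : Lef f N S m) (h : Wt f N c S m)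
    (hd : Dual f N d S m B) : IsMonodromyFiltration N (wfil f S m) where
  mono := fun s t hst => wfil_mono s t hst
  exhaustive := by
    refine ⟨m, sp_eq_top fun μ x h0 hx => ?_⟩
    obtain ⟨w, h1, h2, h3⟩ := h.ev μ x h0 hx
    exact ⟨w, by omega, h3⟩
  separated := by
    refine ⟨-m - 1, ?_⟩
    rw [eq_bot_iff]
    intro x hx
    rw [Submodule.mem_bot]
    by_contra h0
    have hne : wfil f S m (-m - 1) ≠ ⊥ := fun hb => by
      rw [hb, Submodule.mem_bot] at hx
      exact h0 hx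
    obtain ⟨μ, y, hy, hy0, hye⟩ := exists_eig (f := f) (fun y hy => sp_stable hy) hne
    obtain ⟨w, h1, h2, h3⟩ := h.ev μ y hy0 hye
    obtain ⟨w', h4, h5⟩ := eig_mem_of_sp hy0 hye hy
    have := h.disj μ w w' h3 h5
    omega
  shift := fun s x hx => h.N_wfil hx
  inj := by
    intro j x hx h1
    obtain ⟨a, ha, b, hb, rfl⟩ := wfil_decomp _ hx
    have h2 : (N ^ j) a ∈ wfil f S m (-j - 1) := by
      have h3 := h.pow_wfil j hb
      have h4 : (j : ℤ) - 1 - 2 * j = -j - 1 := by ring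
      rw [h4] at h3
      rw [map_add] at h1
      simpa using Submodule.sub_mem _ h1 h3
    have h3 : (N ^ j) a ∈ sp f (S (m + -j)) := by
      have h4 := h.pow_sp j ha
      have h5 : m + (j : ℤ) - 2 * j = m + -j := by ring
      rwa [h5] at h4
    have h4 := h.wfil_disj h3 h2
    rw [hL.inj h j ha h4, zero_add]
    exact hb
  surj := by
    intro j y hy
    obtain ⟨a, ha, b, hb, rfl⟩ := wfil_decomp _ hy
    have h1 : m + -(j : ℤ) = m - j := by ring
    rw [h1] at ha
    obtain ⟨x, hx, rfl⟩ := hL.surj h hd j ha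
    refine ⟨x, sp_le_wfil _ hx, ?_⟩
    rw [add_sub_cancel_left]
    exact hb

/-- The eigenvalues on the graded pieces. -/
theorem Wt.eig_gr (h : Wt f N c S m) {s : ℤ} {μ : Ω} {x : V} (hx : x ∈ wfil f S m s)
    (hx' : x ∉ wfil f S m (s - 1)) (he : f x - μ • x ∈ wfil f S m (s - 1)) : μ ∈ S (m + s) := by
  obtain ⟨a, ha, b, hb, rfl⟩ := wfil_decomp _ hx
  have h0 : a ≠ 0 := by
    rintro rfl
    apply hx'
    rw [zero_add]
    exact hb
  have h1 : f a - μ • a ∈ wfil f S m (s - 1) := by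
    have h2 : f b - μ • b ∈ wfil f S m (s - 1) :=
      Submodule.sub_mem _ (sp_stable hb) (Submodule.smul_mem _ _ hb)
    have h3 : f (a + b) - μ • (a + b) - (f b - μ • b) = f a - μ • a := by
      rw [map_add, smul_add]; abel
    rw [← h3]
    exact Submodule.sub_mem _ he h2
  have h2 := h.wfil_disj (Submodule.sub_mem _ (sp_stable ha) (Submodule.smul_mem _ μ ha)) h1
  exact eig_mem_of_sp h0 (sub_eq_zero.1 h2) ha

/-- Conversely, if the eigenvalues on the graded pieces of the monodromy filtration have the right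
weights then the operators `N ^ j` are injective. -/
theorem lef_of_fil (h : Wt f N c S m) {Fil : ℤ → Submodule Ω V} (hF : IsMonodromyFiltration N Fil)
    (hev : ∀ s μ, (∃ x ∈ Fil s, x ∉ Fil (s - 1) ∧ f x - μ • x ∈ Fil (s - 1)) → μ ∈ S (m + s)) :
    Lef f N S m := by
  intro j hj μ hμ x h0 hx hN
  obtain ⟨a, ha⟩ := hF.separated
  obtain ⟨b, hb⟩ := hF.exhaustive
  -- the smallest step of the filtration that contains `x`
  have hex : ∃ t : ℕ, x ∈ Fil (a + t) := by
    refine ⟨(b - a).toNat, hF.mono ?_ (by rw [hb]; trivial : x ∈ Fil b)⟩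
    have := Int.self_le_toNat (b - a)
    linarith
  classical
  have h1 := Nat.find_spec hex
  have hmin := fun t => Nat.find_min hex (m := t)
  set t := Nat.find hex with ht
  have ht0 : t ≠ 0 := by
    intro h2
    rw [h2, Nat.cast_zero, add_zero, ha, Submodule.mem_bot] at h1
    exact h0 h1
  have h2 : x ∉ Fil (a + t - 1) := by
    have h3 := hmin (t - 1) (by omega)
    have h4 : a + ((t - 1 : ℕ) : ℤ) = a + t - 1 := by
      rw [Nat.cast_sub (by omega)]; push_cast; ring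
    rwa [h4] at h3
  have h3 : μ ∈ S (m + (a + t)) := by
    refine hev _ _ ⟨x, h1, h2, ?_⟩
    rw [hx, sub_self]
    exact Submodule.zero_mem _
  have h4 := h.disj μ _ _ hμ h3
  have h5 : a + (t : ℤ) = j := by linarith
  rw [h5] at h1 h2
  exact h2 (hF.inj j x h1 (by rw [hN]; exact Submodule.zero_mem _))

end closed

end Pool.Agent.V8H91.MW
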