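import Mathlib
import Pool.Agent.V8H91.MW.Defs
import Pool.Agent.V8H91.MW.Core

/-!
# Weil numbers
-/

set_option autoImplicit false
set_option linter.unusedSectionVars false

namespace Pool.Agent.V8H91.MW

open Module IntermediateField

variable {Ω : Type*} [Field Ω] [CharZero Ω]

theorem aeval_hom {K L : Type*} [Field K] [CharZero K] [Field L] [CharZero L] (σ : K →+* L)
    (a : K) (p : Polynomial ℚ) : Polynomial.aeval (σ a) p = σ (Polynomial.aeval a p) := by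
  rw [Polynomial.aeval_def, Polynomial.aeval_def, Polynomial.hom_eval₂]
  congr 1
  exact Subsingleton.elim _ _

/-- Complex conjugates of elements of the field generated by an algebraic number. -/
theorem exists_conj {ν : Ω} (hν : IsAlgebraic ℚ ν) {z : ℂ}
    (hz : Polynomial.aeval z (minpoly ℚ ν) = 0) :
    ∃ σ : ℚ⟮ν⟯ →+* ℂ, σ (AdjoinSimple.gen ℚ ν) = z ∧
      ∀ a : ℚ⟮ν⟯, Polynomial.aeval (σ a) (minpoly ℚ (a : Ω)) = 0 := by
  have hint : IsIntegral ℚ ν := hν.isIntegral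
  have hmem : z ∈ (minpoly ℚ ν).aroots ℂ := by
    rw [Polynomial.mem_aroots]
    exact ⟨minpoly.ne_zero hint, hz⟩
  refine ⟨((algHomAdjoinIntegralEquiv ℚ hint).symm ⟨z, hmem⟩).toRingHom, ?_, fun a => ?_⟩
  · exact algHomAdjoinIntegralEquiv_symm_apply_gen ℚ hint ⟨z, hmem⟩
  · rw [aeval_hom]
    have h1 : Polynomial.aeval a (minpoly ℚ (a : Ω)) = 0 := by
      apply Subtype.ext
      have h2 := aeval_hom (algebraMap ℚ⟮ν⟯ Ω) a (minpoly ℚ (a : Ω))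
      change ((Polynomial.aeval a (minpoly ℚ (a : Ω)) : ℚ⟮ν⟯) : Ω) = 0
      refine Eq.trans h2.symm ?_
      exact minpoly.aeval ℚ (a : Ω)
    rw [h1, map_zero]

variable {q : ℕ} {n : ℤ}

theorem IsWeil.ne_zero (hq : 1 < q) {w : ℤ} {μ : Ω} (h : IsWeil q n w μ) : μ ≠ 0 := by
  rintro rfl
  have h1 := h.2 0 (by rw [minpoly.zero]; simp)
  rw [norm_zero] at h1
  have h2 : (0 : ℝ) < (q : ℝ) ^ ((w * n : ℝ) / 2) := Real.rpow_pos_of_pos (by positivity) _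
  linarith

theorem IsWeil.unique (hq : 1 < q) (hn : n ≠ 0) {w w' : ℤ} {μ : Ω} (h : IsWeil q n w μ)
    (h' : IsWeil q n w' μ) : w = w' := by
  have hq' : (1 : ℝ) < q := by exact_mod_cast hq
  have hdeg : (minpoly ℚ μ).degree ≠ 0 := (minpoly.degree_pos h.1.isIntegral).ne'
  obtain ⟨z, hz⟩ := IsAlgClosed.exists_aeval_eq_zero ℂ _ hdeg
  have h1 := (h.2 z hz).symm.trans (h'.2 z hz)
  have h2 := (Real.rpow_right_inj (by linarith) hq'.ne').1 h1
  have h3 : ((w * n : ℤ) : ℝ) = ((w' * n : ℤ) : ℝ) := by push_cast; linarith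
  have h4 : w * n = w' * n := by exact_mod_cast h3
  exact mul_right_cancel₀ hn h4

/-- Scaling by powers of `q`. -/
theorem IsWeil.scale (hq : 1 < q) {w : ℤ} (k : ℤ) {μ : Ω} (h : IsWeil q n w μ) :
    IsWeil q n (w + 2 * k) ((q : Ω) ^ (k * n) * μ) := by
  have hq0 : (0 : ℝ) < q := by exact_mod_cast (by omega : 0 < q)
  have hqΩ : (q : Ω) ≠ 0 := by exact_mod_cast (by omega : q ≠ 0)
  have hqC : (q : ℂ) ≠ 0 := by exact_mod_cast (by omega : q ≠ 0)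
  have hr : IsAlgebraic ℚ ((q : Ω) ^ (k * n)) := by
    have h1 : ((q : Ω) ^ (k * n)) = algebraMap ℚ Ω ((q : ℚ) ^ (k * n)) := by
      rw [map_zpow₀]; simp
    rw [h1]
    exact isAlgebraic_algebraMap _
  refine ⟨hr.mul h.1, fun z hz => ?_⟩
  obtain ⟨σ, hσ, hσ'⟩ := exists_conj (hr.mul h.1) hz
  let a : ℚ⟮(q : Ω) ^ (k * n) * μ⟯ := algebraMap ℚ _ ((q : ℚ) ^ (-(k * n))) *
    AdjoinSimple.gen ℚ ((q : Ω) ^ (k * n) * μ)
  have ha : (a : Ω) = μ := by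
    change (algebraMap ℚ Ω ((q : ℚ) ^ (-(k * n)))) * ((q : Ω) ^ (k * n) * μ) = μ
    rw [map_zpow₀, map_natCast, ← mul_assoc, ← zpow_add₀ hqΩ, neg_add_cancel, zpow_zero, one_mul]
  have h1 := hσ' a
  rw [ha] at h1
  have h2 := h.2 _ h1
  have h3 : σ a = (q : ℂ) ^ (-(k * n)) * z := by
    simp only [a]
    rw [map_mul, hσ, map_zpow₀, map_zpow₀, map_natCast, map_natCast]
  rw [h3, norm_mul, norm_zpow, Complex.norm_natCast] at h2
  have h4 : ‖z‖ = (q : ℝ) ^ (k * n) * (q : ℝ) ^ ((w * n : ℝ) / 2) := by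
    rw [← h2, ← mul_assoc, ← zpow_add₀ hq0.ne', add_neg_cancel, zpow_zero, one_mul]
  rw [h4, ← Real.rpow_intCast, ← Real.rpow_add hq0]
  congr 1
  push_cast
  ring

/-- Inversion. -/
theorem IsWeil.inv (hq : 1 < q) {w : ℤ} (m : ℤ) {μ : Ω} (h : IsWeil q n w μ) :
    IsWeil q n (2 * m - w) ((q : Ω) ^ (m * n) * μ⁻¹) := by
  have hq0 : (0 : ℝ) < q := by exact_mod_cast (by omega : 0 < q)
  have hqΩ : (q : Ω) ≠ 0 := by exact_mod_cast (by omega : q ≠ 0)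
  have hμ := h.ne_zero hq
  have hr : IsAlgebraic ℚ ((q : Ω) ^ (m * n)) := by
    have h1 : ((q : Ω) ^ (m * n)) = algebraMap ℚ Ω ((q : ℚ) ^ (m * n)) := by
      rw [map_zpow₀]; simp
    rw [h1]
    exact isAlgebraic_algebraMap _
  have hν : IsAlgebraic ℚ ((q : Ω) ^ (m * n) * μ⁻¹) := hr.mul (IsAlgebraic.inv h.1)
  refine ⟨hν, fun z hz => ?_⟩
  obtain ⟨σ, hσ, hσ'⟩ := exists_conj hν hz
  let a : ℚ⟮(q : Ω) ^ (m * n) * μ⁻¹⟯ := algebraMap ℚ _ ((q : ℚ) ^ (m * n)) *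
    (AdjoinSimple.gen ℚ ((q : Ω) ^ (m * n) * μ⁻¹))⁻¹
  have ha : (a : Ω) = μ := by
    change (algebraMap ℚ Ω ((q : ℚ) ^ (m * n))) * ((q : Ω) ^ (m * n) * μ⁻¹)⁻¹ = μ
    rw [map_zpow₀, map_natCast]
    have := zpow_ne_zero (m * n) hqΩ
    field_simp
  have h1 := hσ' a
  rw [ha] at h1
  have h2 := h.2 _ h1
  have h3 : σ a = (q : ℂ) ^ (m * n) * z⁻¹ := by
    simp only [a]
    rw [map_mul, map_inv₀, hσ, map_zpow₀, map_zpow₀, map_natCast, map_natCast]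
  rw [h3, norm_mul, norm_zpow, Complex.norm_natCast, norm_inv] at h2
  have hz0 : 0 < ‖z‖ := by
    by_contra hcon
    have h4 : ‖z‖ = 0 := le_antisymm (not_lt.1 hcon) (norm_nonneg _)
    rw [h4, inv_zero, mul_zero] at h2
    have h5 : (0 : ℝ) < (q : ℝ) ^ ((w * n : ℝ) / 2) := Real.rpow_pos_of_pos hq0 _
    linarith
  have h4 : ‖z‖ = (q : ℝ) ^ (m * n) / (q : ℝ) ^ ((w * n : ℝ) / 2) := by
    rw [← h2]
    field_simp
  rw [h4, ← Real.rpow_intCast, ← Real.rpow_sub hq0]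
  congr 1
  push_cast
  ring

/-- The inverse of a Weil number, with the opposite exponent. -/
theorem IsWeil.inv_neg (hq : 1 < q) {w : ℤ} {μ : Ω} (h : IsWeil q n w μ) :
    IsWeil q (-n) w μ⁻¹ := by
  have h1 := h.inv hq 0
  rw [zero_mul, zpow_zero, one_mul] at h1
  refine ⟨h1.1, fun z hz => ?_⟩
  rw [h1.2 z hz]
  congr 1
  push_cast
  ring

theorem isWeil_zero_iff {w w' : ℤ} {μ : Ω} (h : IsWeil q 0 w μ) : IsWeil q 0 w' μ := by
  refine ⟨h.1, fun z hz => ?_⟩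
  rw [h.2 z hz]
  simp

end Pool.Agent.V8H91.MW
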