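import Mathlib
import Pool.Agent.V8H91.MW.Weil

/-!
# The monodromy-weight property in terms of eigenvectors
-/

set_option autoImplicit false
set_option linter.unusedSectionVars false

namespace Pool.Agent.V8H91.MW

open Module

variable {Ω : Type*} [Field Ω] [CharZero Ω] {V : Type*} [AddCommGroup V] [Module Ω V]
  {W : Type*} [Group W] {q : ℕ} {v : W →* Multiplicative ℤ} {ρ : Representation Ω W V}
  {N : Module.End Ω V} {m : ℕ}

/-- The eigenvalues of weight `w` for elements of valuation `n`. -/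
def SS (Ω : Type*) [Field Ω] [CharZero Ω] (q : ℕ) (n : ℤ) (w : ℤ) : Set Ω :=
  {μ | IsWeil q n w μ}

theorem qpow_ne (hq : 1 < q) (n : ℤ) : (q : Ω) ^ n ≠ 0 := by
  apply zpow_ne_zero
  exact_mod_cast (by omega : q ≠ 0)

theorem wt_of_geometric (hq : 1 < q) (hV : IsGeometric q v ρ N m) {g : W}
    (hg : 0 < (v g).toAdd) :
    Wt (ρ g) N ((q : Ω) ^ (v g).toAdd) (SS Ω q (v g).toAdd) m where
  c0 := qpow_ne hq _
  comm := hV.equivariant g
  disj := fun μ w w' h h' => IsWeil.unique hq hg.ne' h h'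
  shift := by
    intro μ w
    constructor
    · intro h
      have h1 := IsWeil.scale hq (-1) h
      have h2 : w + 2 * (-1) = w - 2 := by ring
      rw [h2, neg_one_mul, zpow_neg] at h1
      exact h1
    · intro h
      have h1 := IsWeil.scale hq 1 h
      have h2 : w - 2 + 2 * 1 = w := by ring
      rw [h2, one_mul, ← mul_assoc, mul_inv_cancel₀ (qpow_ne hq _), one_mul] at h1
      exact h1
  ev := fun μ x h0 h => hV.weights g μ x h0 h

theorem dual_of_geometric (hq : 1 < q) {g : W} {B : V →ₗ[Ω] V →ₗ[Ω] Ω}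
    (h1 : ∀ x, (∀ y, B x y = 0) → x = 0)
    (h2 : ∀ g x y, B (ρ g x) (ρ g y) = (q : Ω) ^ (m * (v g).toAdd) * B x y)
    (h3 : ∀ x y, B (N x) y + B x (N y) = 0) :
    Dual (ρ g) N ((q : Ω) ^ (m * (v g).toAdd)) (SS Ω q (v g).toAdd) m B where
  zero := fun w h => h.ne_zero hq rfl
  dual := fun μ w h => IsWeil.inv hq m h
  Bf := h2 g
  BN := h3
  Bnd := h1

theorem rho_inv_apply (g : W) (x : V) : ρ g⁻¹ (ρ g x) = x := by
  rw [← Module.End.mul_apply, ← map_mul, inv_mul_cancel, map_one]
  rfl

variable [IsAlgClosed Ω] [FiniteDimensional Ω V]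

/-- The monodromy-weight property in terms of eigenvectors. -/
theorem mw_iff (hq : 1 < q) (hv : ∃ g, v g = Multiplicative.ofAdd 1)
    (hV : IsGeometric q v ρ N m) : MonodromyWeight q v ρ N m ↔
      ∀ g, 0 < (v g).toAdd → Lef (ρ g) N (SS Ω q (v g).toAdd) m := by
  constructor
  · rintro ⟨Fil, h1, -, h3⟩ g hg
    exact lef_of_fil (wt_of_geometric hq hV hg) h1 (h3 · g ·)
  · intro hL
    obtain ⟨B, hB1, hB2, hB3⟩ := hV.duality
    obtain ⟨φ, hφ⟩ := hv
    have hφ' : 0 < (v φ).toAdd := by rw [hφ]; exact zero_lt_one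
    have hfil : ∀ g, 0 < (v g).toAdd →
        IsMonodromyFiltration N (wfil (ρ g) (SS Ω q (v g).toAdd) m) := fun g hg =>
      (hL g hg).isMonodromyFiltration (wt_of_geometric hq hV hg)
        (dual_of_geometric hq hB1 hB2 hB3)
    have hF := hfil φ hφ'
    set Fil := wfil (ρ φ) (SS Ω q (v φ).toAdd) (m : ℤ) with hFil
    have heq : ∀ g, 0 < (v g).toAdd → ∀ s, Fil s = wfil (ρ g) (SS Ω q (v g).toAdd) m s :=
      fun g hg s => (hF.eq_RR s).trans ((hfil g hg).eq_RR s).symm
    have hst : ∀ s g, ∀ x ∈ Fil s, ρ g x ∈ Fil s := by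
      intro s g x hx
      rw [hF.eq_RR] at hx ⊢
      exact RR_stable (qpow_ne hq _) (hV.equivariant g) hx
    have hpos : ∀ s g (μ : Ω), 0 < (v g).toAdd →
        (∃ x ∈ Fil s, x ∉ Fil (s - 1) ∧ ρ g x - μ • x ∈ Fil (s - 1)) →
        IsWeil q (v g).toAdd (m + s) μ := by
      rintro s g μ hg ⟨x, hx, hx', he⟩
      rw [heq g hg] at hx hx' he
      exact (wt_of_geometric hq hV hg).eig_gr hx hx' he
    refine ⟨Fil, hF, hst, fun s g μ hx => ?_⟩
    rcases lt_trichotomy (v g).toAdd 0 with hg | hg | hg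
    · -- elements of negative valuation
      obtain ⟨x, hx, hx', he⟩ := hx
      have hg' : 0 < (v g⁻¹).toAdd := by rw [map_inv, toAdd_inv]; omega
      have hμ : μ ≠ 0 := by
        rintro rfl
        rw [zero_smul, sub_zero] at he
        apply hx'
        have h1 := hst _ g⁻¹ _ he
        rwa [rho_inv_apply] at h1
      have h1 : ρ g⁻¹ x - μ⁻¹ • x ∈ Fil (s - 1) := by
        have h2 := Submodule.smul_mem _ (-μ⁻¹) (hst _ g⁻¹ _ he)
        have h3 : (-μ⁻¹) • ρ g⁻¹ (ρ g x - μ • x) = ρ g⁻¹ x - μ⁻¹ • x := by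
          rw [map_sub, map_smul, rho_inv_apply, smul_sub, smul_smul, neg_mul,
            inv_mul_cancel₀ hμ, neg_smul, neg_smul, one_smul]
          abel
        rwa [h3] at h2
      have h2 := hpos s g⁻¹ μ⁻¹ hg' ⟨x, hx, hx', h1⟩
      have h3 := h2.inv_neg hq
      rw [inv_inv, map_inv, toAdd_inv, neg_neg] at h3
      exact h3
    · -- elements of inertia
      obtain ⟨x, hx, hx', he⟩ := hx
      rw [hg]
      -- an eigenvector in the whole space
      have h1 : ∃ y, y ≠ 0 ∧ ρ g y = μ • y := by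
        by_contra hcon
        push Not at hcon
        have hinj : Function.Injective ((ρ g - μ • 1).restrict
            (p := Fil (s - 1)) (q := Fil (s - 1)) (fun y hy =>
              Submodule.sub_mem _ (hst _ g y hy) (Submodule.smul_mem _ μ hy))) := by
          rw [injective_iff_map_eq_zero]
          intro y hy
          by_contra hy0
          refine hcon y (fun h => hy0 (Subtype.ext h)) ?_
          have h2 := congrArg Subtype.val hy
          exact sub_eq_zero.1 h2
        have hsurj := LinearMap.injective_iff_surjective.1 hinj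
        obtain ⟨z, hz⟩ := hsurj ⟨_, he⟩
        have h2 : ρ g (z : V) - μ • (z : V) = ρ g x - μ • x := congrArg Subtype.val hz
        refine hcon (x - z) (fun h => ?_) ?_
        · apply hx'
          rw [sub_eq_zero.1 h]
          exact z.2
        · rw [map_sub, smul_sub]
          have h3 : ρ g x - ρ g (z : V) - (μ • x - μ • (z : V)) =
              (ρ g x - μ • x) - (ρ g (z : V) - μ • (z : V)) := by abel
          rw [← sub_eq_zero, h3, h2, sub_self]
      obtain ⟨y, hy, hye⟩ := h1
      obtain ⟨w, -, -, hw⟩ := hV.weights g μ y hy hye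
      rw [hg] at hw
      exact isWeil_zero_iff hw
    · exact hpos s g μ hg hx

end Pool.Agent.V8H91.MW
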