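import Mathlib
import Pool.Agent.V8H91.MW.Defs

/-!
# The first cohomology group of a Tate curve and its symmetric powers

Let `E` be a Tate elliptic curve over the local field.  `H^1(E)` has a basis `1`, `X` with
`g 1 = 1` and `g X = q ^ v(g) X + c(g)` for all `g` in the Weil group, and the monodromy operator
maps `X` to `1` and `1` to `0`.  So `Sym^k H^1(E)`, a direct summand of `H^k(E^k)`, is the space of
polynomials in `X` of degree at most `k`; `g` acts by the substitution `X ↦ q ^ v(g) X + c(g)` and
the monodromy operator is the derivative.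
-/

set_option autoImplicit false

namespace Pool.Agent.V8H91.MW

open Module TensorProduct Polynomial

variable {Ω : Type*} [Field Ω]

/-- Polynomials of degree at most `k`: the space `Sym^k H^1(E)`. -/
noncomputable abbrev SymE (Ω : Type*) [Field Ω] (k : ℕ) : Submodule Ω (Polynomial Ω) := degreeLT Ω (k + 1)

theorem mem_sym {k : ℕ} {p : Polynomial Ω} : p ∈ SymE Ω k ↔ p.natDegree ≤ k := by
  rw [mem_degreeLT, degree_lt_iff_coeff_zero, natDegree_le_iff_coeff_eq_zero]
  exact Iff.rfl

/-- The substitution `X ↦ a X + b`. -/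
noncomputable def symAct (a b : Ω) (k : ℕ) : Module.End Ω (SymE Ω k) :=
  (aeval (C a * X + C b) : Polynomial Ω →ₐ[Ω] Polynomial Ω).toLinearMap.restrict (fun p hp => by
    rw [mem_sym] at hp ⊢
    change (aeval (C a * X + C b) p).natDegree ≤ k
    rw [← comp_eq_aeval]
    refine natDegree_comp_le.trans ?_
    have h : (C a * X + C b : Polynomial Ω).natDegree ≤ 1 := natDegree_linear_le
    calc p.natDegree * (C a * X + C b : Polynomial Ω).natDegree ≤ p.natDegree * 1 :=
          Nat.mul_le_mul_left _ h
      _ ≤ k := by rw [mul_one]; exact hp)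

/-- The derivative. -/
noncomputable def symN (Ω : Type*) [Field Ω] (k : ℕ) : Module.End Ω (SymE Ω k) :=
  (derivative : Polynomial Ω →ₗ[Ω] Polynomial Ω).restrict (fun p hp => by
    rw [mem_sym] at hp ⊢
    exact (natDegree_derivative_le p).trans ((Nat.sub_le _ _).trans hp))

variable {V : Type*} [AddCommGroup V] [Module Ω V] {W : Type*} [Group W]

/-- The action of the Weil group on `V ⊗ Sym^k H^1(E)`. -/
noncomputable def actSym (q : ℕ) (v : W →* Multiplicative ℤ) (ρ : Representation Ω W V)
    (c : W → Ω) (k : ℕ) (g : W) : Module.End Ω (V ⊗[Ω] SymE Ω k) :=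
  TensorProduct.map (ρ g) (symAct ((q : Ω) ^ (v g).toAdd) (c g) k)

/-- The monodromy operator on `V ⊗ Sym^k H^1(E)`. -/
noncomputable def monSym (N : Module.End Ω V) (k : ℕ) : Module.End Ω (V ⊗[Ω] SymE Ω k) :=
  TensorProduct.map N LinearMap.id + TensorProduct.map LinearMap.id (symN Ω k)

end Pool.Agent.V8H91.MW
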