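import Mathlib
import Pool.Agent.V8H91.MW.Main
import Pool.Agent.V8H91.MW.TateDefs

/-!
# Invariants in the products with symmetric powers of a Tate curve
-/

set_option autoImplicit false
set_option linter.unusedSectionVars false

namespace Pool.Agent.V8H91.MW

open Module TensorProduct Polynomial

section lin

variable {Ω : Type*} [Field Ω] [CharZero Ω] {V : Type*} [AddCommGroup V] [Module Ω V]
  [FiniteDimensional Ω V]

/-- Evaluation at `a`. -/
noncomputable def evP (a : Ω) (k : ℕ) : SymE Ω k →ₗ[Ω] Ω :=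
  (leval a).comp (SymE Ω k).subtype

theorem evP_apply (a : Ω) (k : ℕ) (p : SymE Ω k) : evP a k p = eval a p.1 := rfl

/-- Evaluation at `a` on `V ⊗ Sym^k`. -/
noncomputable def EV (V : Type*) [AddCommGroup V] [Module Ω V] (a : Ω) (k : ℕ) :
    V ⊗[Ω] SymE Ω k →ₗ[Ω] V :=
  (TensorProduct.rid Ω V).toLinearMap.comp (TensorProduct.map LinearMap.id (evP a k))

theorem EV_tmul (a : Ω) (k : ℕ) (x : V) (p : SymE Ω k) : EV V a k (x ⊗ₜ p) = eval a p.1 • x := by
  unfold EV
  rw [LinearMap.comp_apply, TensorProduct.map_tmul]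
  exact TensorProduct.rid_tmul _ _

theorem EV_N (N : Module.End Ω V) (a : Ω) (k : ℕ) (y : V ⊗[Ω] SymE Ω k) :
    EV V a k (TensorProduct.map N LinearMap.id y) = N (EV V a k y) := by
  induction y with
  | zero => simp only [map_zero]
  | add y z hy hz => simp only [map_add, hy, hz]
  | tmul x p => rw [TensorProduct.map_tmul, EV_tmul, EV_tmul, map_smul, LinearMap.id_apply]

theorem EV_act (g : Module.End Ω V) (a b x₀ : Ω) (hx : a * x₀ + b = x₀) (k : ℕ)
    (y : V ⊗[Ω] SymE Ω k) :
    EV V x₀ k (TensorProduct.map g (symAct a b k) y) = g (EV V x₀ k y) := by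
  induction y with
  | zero => simp only [map_zero]
  | add y z hy hz => simp only [map_add, hy, hz]
  | tmul x p =>
    rw [TensorProduct.map_tmul, EV_tmul, EV_tmul, map_smul]
    congr 1
    change eval x₀ (aeval (C a * X + C b) p.1) = eval x₀ p.1
    rw [← comp_eq_aeval, eval_comp]
    simp [hx]

/-- The iterated derivatives. -/
noncomputable def DD (V : Type*) [AddCommGroup V] [Module Ω V] (k : ℕ) :
    Module.End Ω (V ⊗[Ω] SymE Ω k) :=
  TensorProduct.map LinearMap.id (symN Ω k)

theorem DD_comm (N : Module.End Ω V) (k : ℕ) (y : V ⊗[Ω] SymE Ω k) :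
    DD V k (TensorProduct.map N LinearMap.id y) = TensorProduct.map N LinearMap.id (DD V k y) := by
  induction y with
  | zero => simp only [map_zero]
  | add y z hy hz => simp only [map_add, hy, hz]
  | tmul x p =>
    unfold DD
    rw [TensorProduct.map_tmul, TensorProduct.map_tmul, TensorProduct.map_tmul,
      TensorProduct.map_tmul, LinearMap.id_apply, LinearMap.id_apply]
    rfl

/-- On the kernel of the monodromy operator the derivatives are given by powers of `N`. -/
theorem EV_DD (N : Module.End Ω V) (a : Ω) (k j : ℕ) {y : V ⊗[Ω] SymE Ω k}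
    (hy : monSym N k y = 0) : EV V a k ((DD V k ^ j) y) = (-1 : Ω) ^ j • (N ^ j) (EV V a k y) := by
  induction j generalizing y with
  | zero => simp
  | succ j ih =>
    have h1 : DD V k y = -(TensorProduct.map N LinearMap.id y) := by
      have h2 : TensorProduct.map N LinearMap.id y + DD V k y = 0 := hy
      exact (neg_eq_of_add_eq_zero_right h2).symm
    have h2 : monSym N k (DD V k y) = 0 := by
      unfold monSym
      rw [LinearMap.add_apply, ← DD_comm]
      change DD V k _ + DD V k (DD V k y) = 0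
      rw [← map_add, h1]
      rw [add_neg_cancel, map_zero]
    rw [pow_succ, Module.End.mul_apply, ih h2, h1, map_neg, EV_N, map_neg, smul_neg, pow_succ,
      pow_succ, Module.End.mul_apply]
    rw [mul_neg_one, neg_smul]

theorem symN_pow_apply (k j : ℕ) (p : SymE Ω k) : ((symN Ω k ^ j) p).1 = derivative^[j] p.1 := by
  induction j generalizing p with
  | zero => rfl
  | succ j ih =>
    rw [pow_succ, Module.End.mul_apply, ih, Function.iterate_succ_apply]
    rfl

/-- A polynomial all of whose derivatives vanish at `a` is zero. -/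
theorem eq_zero_of_derivs {k : ℕ} (a : Ω) (p : SymE Ω k)
    (h : ∀ j, eval a ((symN Ω k ^ j) p).1 = 0) : p = 0 := by
  apply Subtype.ext
  refine eq_zero_of_hasseDeriv_eq_zero p.1 a fun j => ?_
  have h1 := h j
  rw [symN_pow_apply, ← factorial_smul_hasseDeriv, LinearMap.smul_apply, eval_smul,
    nsmul_eq_mul] at h1
  exact (mul_eq_zero.1 h1).resolve_left (by exact_mod_cast j.factorial_ne_zero)

theorem coord_DD {ι : Type*} [DecidableEq ι] (b : Basis ι Ω V) (i : ι) (k j : ℕ)
    (y : V ⊗[Ω] SymE Ω k) :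
    (symN Ω k ^ j) (TensorProduct.equivFinsuppOfBasisLeft b y i) =
      TensorProduct.equivFinsuppOfBasisLeft b ((DD V k ^ j) y) i := by
  induction j generalizing y with
  | zero => rfl
  | succ j ih =>
    rw [pow_succ, pow_succ, Module.End.mul_apply, Module.End.mul_apply, ← ih]
    congr 1
    induction y with
    | zero => simp only [map_zero, Finsupp.coe_zero, Pi.zero_apply]
    | add y z hy hz => simp only [map_add, Finsupp.add_apply, hy, hz]
    | tmul x p =>
      unfold DD
      rw [TensorProduct.map_tmul, TensorProduct.equivFinsuppOfBasisLeft_apply_tmul_apply,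
        TensorProduct.equivFinsuppOfBasisLeft_apply_tmul_apply, map_smul, LinearMap.id_apply]

theorem coord_EV {ι : Type*} [DecidableEq ι] (b : Basis ι Ω V) (i : ι) (k : ℕ) (a : Ω)
    (y : V ⊗[Ω] SymE Ω k) :
    eval a (TensorProduct.equivFinsuppOfBasisLeft b y i).1 = b.repr (EV V a k y) i := by
  induction y with
  | zero => simp only [map_zero, Finsupp.coe_zero, Pi.zero_apply, ZeroMemClass.coe_zero, eval_zero]
  | add y z hy hz =>
    simp only [map_add, Finsupp.add_apply, Submodule.coe_add, eval_add, hy, hz]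
  | tmul x p =>
    rw [TensorProduct.equivFinsuppOfBasisLeft_apply_tmul_apply, EV_tmul, map_smul,
      Finsupp.smul_apply, Submodule.coe_smul, eval_smul, smul_eq_mul, smul_eq_mul, mul_comm]

/-- A vector in the kernel of the monodromy operator with zero value at `a` is zero. -/
theorem eq_zero_of_EV (N : Module.End Ω V) (a : Ω) (k : ℕ) {y : V ⊗[Ω] SymE Ω k}
    (hy : monSym N k y = 0) (h0 : EV V a k y = 0) : y = 0 := by
  classical
  let b := Module.finBasis Ω V
  apply (TensorProduct.equivFinsuppOfBasisLeft (N := SymE Ω k) b).injective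
  rw [map_zero]
  refine Finsupp.ext fun i => ?_
  rw [Finsupp.coe_zero, Pi.zero_apply]
  refine eq_zero_of_derivs a _ fun j => ?_
  rw [coord_DD, coord_EV, EV_DD N a k j hy, h0, map_zero, smul_zero, map_zero, Finsupp.coe_zero,
    Pi.zero_apply]

theorem DD_pow_eq_zero (k : ℕ) (y : V ⊗[Ω] SymE Ω k) : (DD V k ^ (k + 1)) y = 0 := by
  classical
  let b := Module.finBasis Ω V
  apply (TensorProduct.equivFinsuppOfBasisLeft (N := SymE Ω k) b).injective
  rw [map_zero]
  refine Finsupp.ext fun i => ?_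
  rw [← coord_DD, Finsupp.coe_zero, Pi.zero_apply]
  apply Subtype.ext
  rw [symN_pow_apply]
  have h1 := (TensorProduct.equivFinsuppOfBasisLeft b y i).2
  rw [mem_sym] at h1
  exact iterate_derivative_eq_zero (by omega)

/-- From the kernel of the monodromy operator to the kernel of `N ^ (k + 1)`. -/
theorem eig_of_tensor (N g : Module.End Ω V) (a c μ : Ω) (ha : a ≠ 1) (k : ℕ)
    {y : V ⊗[Ω] SymE Ω k} (h0 : y ≠ 0) (hy : monSym N k y = 0)
    (he : TensorProduct.map g (symAct a c k) y = μ • y) :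
    ∃ x, x ≠ 0 ∧ g x = μ • x ∧ (N ^ (k + 1)) x = 0 := by
  have ha' : 1 - a ≠ 0 := sub_ne_zero.2 ha.symm
  have hx₀ : a * (c / (1 - a)) + c = c / (1 - a) := by
    field_simp
    ring
  refine ⟨EV V (c / (1 - a)) k y, fun h => h0 (eq_zero_of_EV N _ k hy h), ?_, ?_⟩
  · rw [← EV_act g a c _ hx₀, he, map_smul]
  · have h1 := EV_DD N (c / (1 - a)) k (k + 1) hy
    rw [DD_pow_eq_zero, map_zero] at h1
    rw [eq_comm, smul_eq_zero] at h1
    exact h1.resolve_left (pow_ne_zero _ (neg_ne_zero.2 one_ne_zero))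

/-- The powers of `X - a`. -/
noncomputable def pw (k : ℕ) (a : Ω) (j : ℕ) : SymE Ω k :=
  if h : j ≤ k then ⟨(X - C a) ^ j, by rw [mem_sym, natDegree_pow, natDegree_X_sub_C, mul_one]; exact h⟩ else 0

theorem pw_val {k j : ℕ} (a : Ω) (h : j ≤ k) : (pw k a j).1 = (X - C a) ^ j := by
  unfold pw
  rw [dif_pos h]

theorem symN_pw_succ {k j : ℕ} (a : Ω) (h : j + 1 ≤ k) :
    symN Ω k (pw k a (j + 1)) = ((j : Ω) + 1) • pw k a j := by
  apply Subtype.ext
  change derivative (pw k a (j + 1)).1 = ((j : Ω) + 1) • (pw k a j).1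
  rw [pw_val a h, pw_val a (by omega), derivative_X_sub_C_pow, smul_eq_C_mul]
  push_cast
  simp

theorem symN_pw_zero (k : ℕ) (a : Ω) : symN Ω k (pw k a 0) = 0 := by
  apply Subtype.ext
  change derivative (pw k a 0).1 = 0
  rw [pw_val a (Nat.zero_le _), pow_zero, derivative_one]

theorem symAct_pw {k j : ℕ} (a c x₀ : Ω) (hx : a * x₀ + c = x₀) (h : j ≤ k) :
    symAct a c k (pw k x₀ j) = a ^ j • pw k x₀ j := by
  apply Subtype.ext
  change aeval (C a * X + C c) (pw k x₀ j).1 = a ^ j • (pw k x₀ j).1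
  rw [pw_val x₀ h, map_pow, map_sub, aeval_X, aeval_C, smul_eq_C_mul, C_pow, ← mul_pow]
  congr 1
  have h1 : C c = C x₀ - C a * C x₀ := by
    rw [← C_mul, ← C_sub]
    congr 1
    linear_combination hx
  rw [h1]
  change C a * X + (C x₀ - C a * C x₀) - C x₀ = _
  ring

/-- The vector `exp(-(X - a) N) x`. -/
noncomputable def ex (N : Module.End Ω V) (a : Ω) (k : ℕ) (x : V) : V ⊗[Ω] SymE Ω k :=
  ∑ j ∈ Finset.range (k + 1), ((-1 : Ω) ^ j * ((j.factorial : Ω))⁻¹) • ((N ^ j) x ⊗ₜ pw k a j)

theorem monSym_ex (N : Module.End Ω V) (a : Ω) (k : ℕ) {x : V} (hx : (N ^ (k + 1)) x = 0) :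
    monSym N k (ex N a k x) = 0 := by
  have h1 : TensorProduct.map N LinearMap.id (ex N a k x) =
      ∑ j ∈ Finset.range k, ((-1 : Ω) ^ j * ((j.factorial : Ω))⁻¹) •
        ((N ^ (j + 1)) x ⊗ₜ pw k a j) := by
    unfold ex
    rw [map_sum, Finset.sum_range_succ]
    have h2 : TensorProduct.map N LinearMap.id (((-1 : Ω) ^ k * ((k.factorial : Ω))⁻¹) •
        ((N ^ k) x ⊗ₜ[Ω] pw k a k)) = 0 := by
      rw [map_smul, TensorProduct.map_tmul, ← Module.End.mul_apply, ← pow_succ', hx,
        TensorProduct.zero_tmul, smul_zero]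
    rw [h2, add_zero]
    refine Finset.sum_congr rfl fun j _ => ?_
    rw [map_smul, TensorProduct.map_tmul, ← Module.End.mul_apply, ← pow_succ', LinearMap.id_apply]
  have h3 : DD V k (ex N a k x) =
      -∑ j ∈ Finset.range k, ((-1 : Ω) ^ j * ((j.factorial : Ω))⁻¹) •
        ((N ^ (j + 1)) x ⊗ₜ pw k a j) := by
    unfold ex DD
    rw [map_sum, Finset.sum_range_succ']
    have h2 : TensorProduct.map LinearMap.id (symN Ω k) (((-1 : Ω) ^ 0 *
        (((0 : ℕ).factorial : Ω))⁻¹) • ((N ^ 0) x ⊗ₜ[Ω] pw k a 0)) = 0 := by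
      rw [map_smul, TensorProduct.map_tmul, symN_pw_zero, TensorProduct.tmul_zero, smul_zero]
    rw [h2, add_zero, ← Finset.sum_neg_distrib]
    refine Finset.sum_congr rfl fun j hj => ?_
    rw [Finset.mem_range] at hj
    rw [map_smul, TensorProduct.map_tmul, symN_pw_succ a (by omega), TensorProduct.tmul_smul,
      smul_smul, LinearMap.id_apply, ← neg_smul]
    congr 1
    rw [Nat.factorial_succ]
    have h4 : ((j : Ω) + 1) ≠ 0 := by exact_mod_cast Nat.succ_ne_zero j
    have h5 : ((j.factorial : ℕ) : Ω) ≠ 0 := by exact_mod_cast j.factorial_ne_zero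
    push_cast
    field_simp
    ring
  unfold monSym
  rw [LinearMap.add_apply, h1]
  change _ + DD V k (ex N a k x) = 0
  rw [h3, add_neg_cancel]

theorem EV_ex (N : Module.End Ω V) (a : Ω) (k : ℕ) (x : V) : EV V a k (ex N a k x) = x := by
  unfold ex
  rw [map_sum, Finset.sum_range_succ']
  have h1 : ∀ j ∈ Finset.range k, EV V a k (((-1 : Ω) ^ (j + 1) *
      (((j + 1).factorial : Ω))⁻¹) • ((N ^ (j + 1)) x ⊗ₜ[Ω] pw k a (j + 1))) = 0 := by
    intro j hj
    rw [Finset.mem_range] at hj
    rw [map_smul, EV_tmul, pw_val a (by omega), eval_pow]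
    simp
  rw [Finset.sum_eq_zero h1, zero_add, map_smul, EV_tmul, pw_val a (Nat.zero_le _)]
  simp

theorem act_ex (N g : Module.End Ω V) (a c x₀ μ : Ω) (ha : a ≠ 0) (hx : a * x₀ + c = x₀)
    (hg : ∀ x, N (g x) = a • g (N x)) (k : ℕ) {x : V} (he : g x = μ • x) :
    TensorProduct.map g (symAct a c k) (ex N x₀ k x) = μ • ex N x₀ k x := by
  have hpow : ∀ (j : ℕ), g ((N ^ j) x) = ((a ^ j)⁻¹ * μ) • (N ^ j) x := by
    intro j
    induction j with
    | zero => simpa using he
    | succ j ih =>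
      have h1 := hg ((N ^ j) x)
      rw [ih, map_smul] at h1
      rw [pow_succ', Module.End.mul_apply]
      have h2 : g (N ((N ^ j) x)) = a⁻¹ • ((a ^ j)⁻¹ * μ) • N ((N ^ j) x) := by
        rw [h1, smul_smul, inv_mul_cancel₀ ha, one_smul]
      rw [h2, smul_smul, pow_succ']
      congr 1
      rw [mul_inv]
      ring
  unfold ex
  rw [map_sum, Finset.smul_sum]
  refine Finset.sum_congr rfl fun j hj => ?_
  rw [Finset.mem_range] at hj
  rw [map_smul, TensorProduct.map_tmul, hpow, symAct_pw a c x₀ hx (by omega),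
    TensorProduct.smul_tmul_smul, smul_smul, smul_smul]
  congr 1
  have := pow_ne_zero j ha
  field_simp

/-- From the kernel of `N ^ (k + 1)` to the kernel of the monodromy operator. -/
theorem tensor_of_eig (N g : Module.End Ω V) (a c μ : Ω) (ha : a ≠ 1) (ha0 : a ≠ 0)
    (hg : ∀ x, N (g x) = a • g (N x)) (k : ℕ) {x : V} (h0 : x ≠ 0) (he : g x = μ • x)
    (hN : (N ^ (k + 1)) x = 0) :
    ∃ y : V ⊗[Ω] SymE Ω k, y ≠ 0 ∧ monSym N k y = 0 ∧
      TensorProduct.map g (symAct a c k) y = μ • y := by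
  have ha' : 1 - a ≠ 0 := sub_ne_zero.2 ha.symm
  have hx₀ : a * (c / (1 - a)) + c = c / (1 - a) := by
    field_simp
    ring
  refine ⟨ex N (c / (1 - a)) k x, fun h => h0 ?_, monSym_ex N _ k hN,
    act_ex N g a c _ μ ha0 hx₀ hg k he⟩
  rw [← EV_ex N (c / (1 - a)) k x, h, map_zero]

end lin

end Pool.Agent.V8H91.MW
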