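import Mathlib
import Pool.Agent.V8H91.MW.Tate

/-!
# The criterion with Tate curves
-/

set_option autoImplicit false
set_option linter.unusedSectionVars false

namespace Pool.Agent.V8H91.MW

open Module TensorProduct

variable {Ω : Type*} [Field Ω] [CharZero Ω] [IsAlgClosed Ω] {V : Type*} [AddCommGroup V]
  [Module Ω V] [FiniteDimensional Ω V]
  {W : Type*} [Group W] {q : ℕ} {v : W →* Multiplicative ℤ} {ρ : Representation Ω W V}
  {N : Module.End Ω V} {m : ℕ}

theorem pow_ne_zero_of_le {j k : ℕ} (h : k ≤ j) {x : V} (hx : (N ^ k) x = 0) : (N ^ j) x = 0 := by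
  obtain ⟨i, rfl⟩ := Nat.exists_eq_add_of_le h
  rw [add_comm, pow_add, Module.End.mul_apply, hx, map_zero]

/-- With the known edges only the exponents `1 ≤ j ≤ m - 2` matter. -/
theorem lef_of_small (hq : 1 < q) (hV : IsGeometric q v ρ N m) (hE : KnownEdges q v ρ N m)
    {g : W} (hg : 0 < (v g).toAdd)
    (h : ∀ j : ℕ, 1 ≤ j → j + 2 ≤ m → ∀ μ ∈ SS Ω q (v g).toAdd (m + j), ∀ x, x ≠ 0 →
      ρ g x = μ • x → (N ^ j) x ≠ 0) :
    Lef (ρ g) N (SS Ω q (v g).toAdd) m := by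
  intro j hj μ hμ x h0 hx
  obtain ⟨w, hw1, hw2, hw3⟩ := hV.weights g μ x h0 hx
  have hw : w = m + j := IsWeil.unique hq hg.ne' hw3 hμ
  have hjm : j ≤ m := by omega
  rcases Nat.lt_or_ge (j + 1) m with h1 | h1
  · exact h j hj (by omega) μ hμ x h0 hx
  · rcases Nat.lt_or_ge j m with h2 | h2
    · have h3 : j = m - 1 := by omega
      subst h3
      refine (hE g hg μ x h0 hx).2 (by omega) ?_
      have h4 : (m : ℤ) + ((m - 1 : ℕ) : ℤ) = 2 * m - 1 := by omega
      rw [h4] at hμ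
      exact hμ
    · have h3 : j = m := by omega
      subst h3
      refine (hE g hg μ x h0 hx).1 ?_
      have h4 : (j : ℤ) + (j : ℤ) = 2 * j := by ring
      rw [h4] at hμ
      exact hμ

/-- The criterion with Tate curves. -/
theorem tate_criterion (hq : 1 < q) (hv : ∃ g, v g = Multiplicative.ofAdd 1)
    (hV : IsGeometric q v ρ N m) (hE : KnownEdges q v ρ N m) (c : W → Ω) :
    MonodromyWeight q v ρ N m ↔
      ∀ k : ℕ, k + 3 ≤ m → ∀ g, 0 < (v g).toAdd → ∀ (μ : Ω) (y : V ⊗[Ω] SymE Ω k), y ≠ 0 →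
        monSym N k y = 0 → actSym q v ρ c k g y = μ • y →
        ∀ w : ℤ, IsWeil q (v g).toAdd w μ → w ≤ m + k := by
  have hq1 : ∀ n : ℤ, 0 < n → (q : Ω) ^ n ≠ 1 := by
    intro n hn h
    obtain ⟨n, rfl⟩ := Int.eq_ofNat_of_zero_le hn.le
    rw [zpow_natCast] at h
    have h1 : q ^ n = 1 := by exact_mod_cast h
    rcases Nat.pow_eq_one.1 h1 with h2 | h2 <;> omega
  rw [mw_iff hq hv hV]
  constructor
  · intro hL k hk g hg μ y h0 hy he w hw
    obtain ⟨x, hx0, hx, hN⟩ := eig_of_tensor N (ρ g) _ (c g) μ (hq1 _ hg) k h0 hy he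
    by_contra hcon
    obtain ⟨j, hj⟩ : ∃ j : ℕ, w = m + j := ⟨(w - m).toNat, by omega⟩
    subst hj
    exact hL g hg j (by omega) μ hw x hx0 hx (pow_ne_zero_of_le (by omega) hN)
  · intro h g hg
    refine lef_of_small hq hV hE hg fun j hj hjm μ hμ x h0 hx hN => ?_
    obtain ⟨k, rfl⟩ : ∃ k, j = k + 1 := ⟨j - 1, by omega⟩
    obtain ⟨y, hy0, hy, he⟩ := tensor_of_eig N (ρ g) _ (c g) μ (hq1 _ hg) (qpow_ne hq _)
      (hV.equivariant g) k h0 hx hN
    have h1 := h k (by omega) g hg μ y hy0 hy he _ hμ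
    push_cast at h1
    omega

end Pool.Agent.V8H91.MW
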