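import Mathlib
import Pool.Agent.V8H91.MW.Criterion
import Pool.Agent.V8H91.MW.JordanDefs

/-!
# Jordan blocks of the monodromy operator
-/

set_option autoImplicit false
set_option linter.unusedSectionVars false

namespace Pool.Agent.V8H91.MW

open Module Module.End

theorem pow_zero_of_le {Ω : Type*} [Field Ω] {V : Type*} [AddCommGroup V] [Module Ω V]
    {N : Module.End Ω V} {j k : ℕ} (h : k ≤ j) {x : V} (hx : (N ^ k) x = 0) : (N ^ j) x = 0 := by
  obtain ⟨i, rfl⟩ := Nat.exists_eq_add_of_le h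
  rw [add_comm, pow_add, Module.End.mul_apply, hx, map_zero]

section lin

variable {Ω : Type*} [Field Ω] {V : Type*} [AddCommGroup V] [Module Ω V]

theorem mem_KK_iff {N : Module.End Ω V} {k : ℕ} {x : V} :
    x ∈ KK N k ↔ ∃ a b, (N ^ (k - 1)) a = 0 ∧ (N ^ (k + 1)) b = 0 ∧ x = a + N b := by
  unfold KK
  rw [Submodule.mem_sup]
  constructor
  · rintro ⟨a, ha, _, ⟨b, hb, rfl⟩, rfl⟩
    exact ⟨a, b, ha, hb, rfl⟩
  · rintro ⟨a, b, ha, hb, rfl⟩
    exact ⟨a, ha, N b, ⟨b, hb, rfl⟩, rfl⟩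

theorem KK_le {N : Module.End Ω V} {k : ℕ} (hk : 1 ≤ k) : KK N k ≤ LinearMap.ker (N ^ k) := by
  intro x hx
  obtain ⟨a, b, ha, hb, rfl⟩ := mem_KK_iff.1 hx
  obtain ⟨k, rfl⟩ : ∃ i, k = i + 1 := ⟨k - 1, by omega⟩
  rw [LinearMap.mem_ker, map_add, ← Module.End.mul_apply (N ^ (k + 1)) N, ← pow_succ, hb,
    add_zero, pow_succ', Module.End.mul_apply]
  have h1 : (N ^ k) a = 0 := ha
  rw [h1, map_zero]

variable [FiniteDimensional Ω V]

theorem finrank_map_ker (N : Module.End Ω V) {k : ℕ} (hk : 1 ≤ k) :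
    finrank Ω ((LinearMap.ker (N ^ k)).map N) + finrank Ω (LinearMap.ker N) =
      finrank Ω (LinearMap.ker (N ^ k)) := by
  have h1 := LinearMap.finrank_range_add_finrank_ker (N.domRestrict (LinearMap.ker (N ^ k)))
  rw [LinearMap.range_domRestrict] at h1
  rw [← h1]
  congr 1
  -- the kernel of the restriction
  have hle : LinearMap.ker N ≤ LinearMap.ker (N ^ k) := by
    intro x hx
    obtain ⟨k, rfl⟩ : ∃ i, k = i + 1 := ⟨k - 1, by omega⟩
    have hx' : N x = 0 := hx
    rw [LinearMap.mem_ker, pow_succ, Module.End.mul_apply, hx', map_zero]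
  have h2 : (LinearMap.ker (N.domRestrict (LinearMap.ker (N ^ k)))).map
      (LinearMap.ker (N ^ k)).subtype = LinearMap.ker N := by
    ext x
    constructor
    · rintro ⟨y, hy, rfl⟩
      exact hy
    · intro hx
      exact ⟨⟨x, hle hx⟩, hx, rfl⟩
  rw [← h2]
  exact (LinearEquiv.finrank_eq (Submodule.equivMapOfInjective _
    (LinearMap.ker (N ^ k)).injective_subtype _)).symm

/-- The dimension of `ker N^{k-1} + N (ker N^{k+1})`. -/
theorem finrank_KK (N : Module.End Ω V) {k : ℕ} (hk : 1 ≤ k) :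
    finrank Ω (KK N k) + finrank Ω (LinearMap.ker (N ^ k)) =
      finrank Ω (LinearMap.ker (N ^ (k - 1))) + finrank Ω (LinearMap.ker (N ^ (k + 1))) := by
  have h1 := Submodule.finrank_sup_add_finrank_inf_eq (LinearMap.ker (N ^ (k - 1)))
    ((LinearMap.ker (N ^ (k + 1))).map N)
  have h2 : LinearMap.ker (N ^ (k - 1)) ⊓ (LinearMap.ker (N ^ (k + 1))).map N =
      (LinearMap.ker (N ^ k)).map N := by
    obtain ⟨k, rfl⟩ : ∃ i, k = i + 1 := ⟨k - 1, by omega⟩
    ext x
    constructor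
    · rintro ⟨h1, ⟨z, hz, rfl⟩⟩
      refine ⟨z, ?_, rfl⟩
      have h3 : (N ^ k) (N z) = 0 := h1
      change (N ^ (k + 1)) z = 0
      rw [pow_succ]
      exact h3
    · rintro ⟨z, hz, rfl⟩
      have hz' : (N ^ (k + 1)) z = 0 := hz
      refine ⟨?_, z, ?_, rfl⟩
      · change (N ^ k) (N z) = 0
        rw [← Module.End.mul_apply, ← pow_succ, hz']
      · change (N ^ (k + 1 + 1)) z = 0
        rw [pow_succ', Module.End.mul_apply, hz', map_zero]
  rw [h2] at h1
  have h3 := finrank_map_ker N hk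
  have h4 := finrank_map_ker N (k := k + 1) (by omega)
  unfold KK
  omega

end lin

section weights

variable {Ω : Type*} [Field Ω] [IsAlgClosed Ω] {V : Type*} [AddCommGroup V] [Module Ω V]
  [FiniteDimensional Ω V]
  {f N : Module.End Ω V} {c d : Ω} {S : ℤ → Set Ω} {m : ℕ} {B : V →ₗ[Ω] V →ₗ[Ω] Ω}

theorem Wt.KK_stable (h : Wt f N c S m) {k : ℕ} {x : V} (hx : x ∈ KK N k) : f x ∈ KK N k := by
  obtain ⟨a, b, ha, hb, rfl⟩ := mem_KK_iff.1 hx
  have h1 : f (N b) = N (c⁻¹ • f b) := by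
    rw [map_smul, h.comm, smul_smul, inv_mul_cancel₀ h.c0, one_smul]
  refine mem_KK_iff.2 ⟨f a, c⁻¹ • f b, h.ker_stable _ ha, ?_, ?_⟩
  · rw [map_smul, h.ker_stable _ hb, smul_zero]
  · rw [map_add, h1]

theorem sp_unique {A : Set Ω} {a b a' b' : V} (ha : a ∈ sp f A) (ha' : a' ∈ sp f A)
    (hb : b ∈ sp f Aᶜ) (hb' : b' ∈ sp f Aᶜ) (he : a + b = a' + b') : a = a' ∧ b = b' := by
  have h1 : a - a' = b' - b := by
    rw [sub_eq_sub_iff_add_eq_add, he, add_comm]
  have h2 : a - a' = 0 := by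
    refine sp_disj (f := f) (disjoint_compl_right (a := A)) (Submodule.sub_mem _ ha ha') ?_
    rw [h1]
    exact Submodule.sub_mem _ hb' hb
  have h3 : a = a' := sub_eq_zero.1 h2
  refine ⟨h3, ?_⟩
  rw [h3] at he
  exact add_left_cancel he

/-- A nonzero vector killed by `N ^ k` whose weight is too large for a Jordan block of size `k`
produces a Jordan block with the wrong centre. -/
theorem exists_bad (h : Wt f N c S m) :
    ∀ (t : ℕ) (w : ℤ), 2 * (m : ℤ) - w ≤ t → ∀ (k : ℕ) (x : V), x ≠ 0 → x ∈ sp f (S w) →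
      (N ^ k) x = 0 → (m : ℤ) + k < w + 1 →
      ∃ (w' : ℤ) (k' : ℕ) (x' : V), 1 ≤ k' ∧ w' ≤ 2 * m ∧ (m : ℤ) + k' < w' + 1 ∧
        x' ∈ sp f (S w') ∧ (N ^ k') x' = 0 ∧ x' ∉ KK N k' := by
  intro t
  -- the weight is at most `2 m`
  have hw2 : ∀ (w : ℤ) (x : V), x ≠ 0 → x ∈ sp f (S w) → w ≤ 2 * m := by
    intro w x h0 hx
    have hne : sp f (S w) ≠ ⊥ := fun hb => by
      rw [hb, Submodule.mem_bot] at hx
      exact h0 hx
    obtain ⟨μ, y, hy, hy0, hye⟩ := exists_eig (f := f) (fun y hy => sp_stable hy) hne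
    obtain ⟨w', h1, h2, h3⟩ := h.ev μ y hy0 hye
    have := h.disj μ w w' (eig_mem_of_sp hy0 hye hy) h3
    omega
  induction t with
  | zero =>
    intro w hw k
    induction k with
    | zero =>
      intro x h0 hx hN _
      exact absurd (by simpa using hN) h0
    | succ k ih =>
      intro x h0 hx hN hk
      by_cases hK : x ∈ KK N (k + 1)
      · -- decompose
        obtain ⟨a, b, ha, hb, hab⟩ := mem_KK_iff.1 hK
        obtain ⟨a₁, ha₁, ha₁', a₂, ha₂, ha₂', rfl⟩ := stable_decomp (f := f)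
          (U := LinearMap.ker (N ^ (k + 1 - 1))) (fun y hy => h.ker_stable _ hy) (S w) ha
        obtain ⟨b₁, hb₁, hb₁', b₂, hb₂, hb₂', rfl⟩ := stable_decomp (f := f)
          (U := LinearMap.ker (N ^ (k + 1 + 1))) (fun y hy => h.ker_stable _ hy) (S (w + 2)) hb
        have e1 : N b₁ ∈ sp f (S w) := by
          have := h.N_sp hb₁'
          rwa [add_sub_cancel_right] at this
        have e2 : N b₂ ∈ sp f (S w)ᶜ := by
          have := h.N_sp_compl hb₂'
          rwa [add_sub_cancel_right] at this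
        have e3 : x + 0 = (a₁ + N b₁) + (a₂ + N b₂) := by
          rw [add_zero, hab, map_add]; abel
        have e4 := (sp_unique hx (Submodule.add_mem _ ha₁' e1) (Submodule.zero_mem _)
          (Submodule.add_mem _ ha₂' e2) e3).1
        have hb0 : b₁ = 0 := by
          by_contra hb0
          have := hw2 (w + 2) b₁ hb0 hb₁'
          push_cast at hw
          omega
        rw [hb0, map_zero, add_zero] at e4
        refine ih x h0 hx ?_ (by push_cast at hk ⊢; omega)
        rw [e4]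
        exact ha₁
      · exact ⟨w, k + 1, x, by omega, hw2 w x h0 hx, hk, hx, hN, hK⟩
  | succ t iht =>
    intro w hw k
    induction k with
    | zero =>
      intro x h0 hx hN _
      exact absurd (by simpa using hN) h0
    | succ k ih =>
      intro x h0 hx hN hk
      by_cases hK : x ∈ KK N (k + 1)
      · obtain ⟨a, b, ha, hb, hab⟩ := mem_KK_iff.1 hK
        obtain ⟨a₁, ha₁, ha₁', a₂, ha₂, ha₂', rfl⟩ := stable_decomp (f := f)
          (U := LinearMap.ker (N ^ (k + 1 - 1))) (fun y hy => h.ker_stable _ hy) (S w) ha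
        obtain ⟨b₁, hb₁, hb₁', b₂, hb₂, hb₂', rfl⟩ := stable_decomp (f := f)
          (U := LinearMap.ker (N ^ (k + 1 + 1))) (fun y hy => h.ker_stable _ hy) (S (w + 2)) hb
        have e1 : N b₁ ∈ sp f (S w) := by
          have := h.N_sp hb₁'
          rwa [add_sub_cancel_right] at this
        have e2 : N b₂ ∈ sp f (S w)ᶜ := by
          have := h.N_sp_compl hb₂'
          rwa [add_sub_cancel_right] at this
        have e3 : x + 0 = (a₁ + N b₁) + (a₂ + N b₂) := by
          rw [add_zero, hab, map_add]; abel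
        have e4 := (sp_unique hx (Submodule.add_mem _ ha₁' e1) (Submodule.zero_mem _)
          (Submodule.add_mem _ ha₂' e2) e3).1
        by_cases hb0 : b₁ = 0
        · rw [hb0, map_zero, add_zero] at e4
          refine ih x h0 hx ?_ (by push_cast at hk ⊢; omega)
          rw [e4]
          exact ha₁
        · exact iht (w + 2) (by push_cast at hw ⊢; omega) (k + 2) b₁ hb0 hb₁' hb₁
            (by push_cast at hk ⊢; omega)
      · exact ⟨w, k + 1, x, by omega, hw2 w x h0 hx, hk, hx, hN, hK⟩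

/-- Orthogonality, on the other side. -/
theorem Dual.orth' (h : Dual f N d S m B) {w : ℤ} {x y : V} (hx : x ∈ sp f (S (2 * m - w))ᶜ)
    (hy : y ∈ sp f (S w)) : B x y = 0 := by
  refine sp_induction (p := fun y => B x y = 0) hy (fun μ hμ y hy => ?_)
    (by rw [map_zero]) (fun y y' hy hy' => by rw [map_add, hy, hy', add_zero])
  refine sp_induction (p := fun x => B x y = 0) hx (fun ν hν x hx => ?_)
    (by rw [map_zero, LinearMap.zero_apply])
    (fun x x' hx hx' => by rw [map_add, LinearMap.add_apply, hx, hx', add_zero])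
  refine h.orth_gen (fun he => hν ?_) hx hy
  have h1 : μ ≠ 0 := fun h0 => h.zero w (h0 ▸ hμ)
  have h2 : ν = d * μ⁻¹ := by rw [← he]; field_simp
  rw [h2]
  exact h.dual μ w hμ

/-- The orthogonal complement of the kernel is the image. -/
theorem Dual.mem_range (h : Dual f N d S m B) (k : ℕ) {u : V}
    (hu : ∀ y, (N ^ k) y = 0 → B y u = 0) : ∃ z, (N ^ k) z = u := by
  by_contra hcon
  have hcon' : u ∉ LinearMap.range (N ^ k) := hcon
  obtain ⟨φ, hφ1, hφ2⟩ := Submodule.exists_dual_map_eq_bot_of_notMem hcon' inferInstance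
  -- the functional is represented by a vector
  have hinj : Function.Injective B := by
    rw [injective_iff_map_eq_zero]
    intro x hx
    exact h.Bnd x fun y => by rw [hx, LinearMap.zero_apply]
  have hsurj := (LinearMap.injective_iff_surjective_of_finrank_eq_finrank
    (Subspace.dual_finrank_eq (K := Ω) (V := V)).symm).1 hinj
  obtain ⟨y, hy⟩ := hsurj φ
  have h1 : (N ^ k) y = 0 := by
    apply h.Bnd
    intro z
    rw [h.pow_adj, hy]
    have h2 : φ ((N ^ k) z) ∈ Submodule.map φ (LinearMap.range (N ^ k)) :=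
      Submodule.mem_map_of_mem ⟨z, rfl⟩
    rw [hφ2, Submodule.mem_bot] at h2
    rw [h2, mul_zero]
  apply hφ1
  rw [← hy]
  exact hu y h1

/-- Duality for the multiplicity spaces of the Jordan blocks. -/
theorem exists_dual_bad (h : Wt f N c S m) (hd : Dual f N d S m B) {w : ℤ} {k : ℕ} (hk : 1 ≤ k)
    {x : V} (hx : x ∈ sp f (S w)) (hN : (N ^ k) x = 0) (hK : x ∉ KK N k) :
    ∃ y ∈ sp f (S (2 * m - w + 2 * (k - 1))), (N ^ k) y = 0 ∧ y ∉ KK N k := by
  obtain ⟨k, rfl⟩ : ∃ i, k = i + 1 := ⟨k - 1, by omega⟩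
  -- a vector with nonzero pairing
  have h1 : ∃ y, (N ^ (k + 1)) y = 0 ∧ B y ((N ^ k) x) ≠ 0 := by
    by_contra hcon
    push Not at hcon
    obtain ⟨z, hz⟩ := hd.mem_range (k + 1) hcon
    apply hK
    refine mem_KK_iff.2 ⟨x - N z, z, ?_, ?_, by abel⟩
    · change (N ^ k) (x - N z) = 0
      rw [map_sub, ← Module.End.mul_apply (N ^ k) N, ← pow_succ, hz, sub_self]
    · rw [pow_succ', Module.End.mul_apply, hz, ← Module.End.mul_apply, ← pow_succ', hN]
  obtain ⟨y, hy, hyx⟩ := h1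
  obtain ⟨y₁, hy₁, hy₁', y₂, -, hy₂', rfl⟩ := stable_decomp (f := f)
    (U := LinearMap.ker (N ^ (k + 1))) (fun y hy => h.ker_stable _ hy)
    (S (2 * m - w + 2 * k)) hy
  have e1 : (N ^ k) x ∈ sp f (S (w - 2 * k)) := h.pow_sp k hx
  have e2 : B y₂ ((N ^ k) x) = 0 := by
    refine hd.orth' (w := w - 2 * k) ?_ e1
    have h2 : 2 * (m : ℤ) - (w - 2 * k) = 2 * m - w + 2 * k := by ring
    rwa [h2]
  have e3 : B y₁ ((N ^ k) x) ≠ 0 := by
    intro h3
    apply hyx
    rw [map_add, LinearMap.add_apply, h3, e2, add_zero]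
  refine ⟨y₁, ?_, hy₁, fun hK' => e3 ?_⟩
  · have h2 : (((k + 1 : ℕ) : ℤ) - 1) = k := by push_cast; ring
    rw [h2]
    exact hy₁'
  · obtain ⟨a, b, ha, hb, hab⟩ := mem_KK_iff.1 hK'
    have ha' : (N ^ k) a = 0 := ha
    have h4 : B a ((N ^ k) x) = 0 := by
      have h5 := hd.pow_adj k a x
      rw [ha', map_zero, LinearMap.zero_apply, eq_comm, mul_eq_zero] at h5
      exact h5.resolve_left (pow_ne_zero _ (neg_ne_zero.2 one_ne_zero))
    have h6 : B (N b) ((N ^ k) x) = 0 := by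
      have h7 := hd.BN b ((N ^ k) x)
      rw [← Module.End.mul_apply N, ← pow_succ', hN, map_zero, add_zero] at h7
      exact h7
    rw [hab, map_add, LinearMap.add_apply, h4, h6, add_zero]

/-- Eigenvalues on the quotient by a stable subspace. -/
theorem exists_eig_quot {U K : Submodule Ω V} (hU : ∀ x ∈ U, f x ∈ U) (hK : ∀ x ∈ K, f x ∈ K)
    {A : Set Ω} (hUA : U ≤ sp f A) (hne : ¬ U ≤ K) :
    ∃ μ ∈ A, ∃ x ∈ U, x ∉ K ∧ f x - μ • x ∈ K := by
  let f' : Module.End Ω (V ⧸ K) := K.mapQ K f hK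
  have hf' : ∀ x, f' (K.mkQ x) = K.mkQ (f x) := fun x => rfl
  have hst : ∀ y ∈ U.map K.mkQ, f' y ∈ U.map K.mkQ := by
    rintro _ ⟨x, hx, rfl⟩
    exact ⟨f x, hU x hx, rfl⟩
  have h0 : U.map K.mkQ ≠ ⊥ := by
    intro h1
    apply hne
    intro x hx
    have h2 : K.mkQ x ∈ U.map K.mkQ := ⟨x, hx, rfl⟩
    rw [h1, Submodule.mem_bot] at h2
    simpa using h2
  obtain ⟨μ, _, ⟨x, hx, rfl⟩, hx0, hxe⟩ := exists_eig (f := f') hst h0
  have hgen : ∀ μ, ∀ x ∈ f.maxGenEigenspace μ, K.mkQ x ∈ f'.maxGenEigenspace μ := by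
    intro μ x hx
    rw [mem_maxGenEigenspace] at hx ⊢
    obtain ⟨n, hn⟩ := hx
    refine ⟨n, ?_⟩
    have key : ∀ (n : ℕ) (x : V), ((f' - μ • (1 : Module.End Ω (V ⧸ K))) ^ n) (K.mkQ x) =
        K.mkQ (((f - μ • (1 : Module.End Ω V)) ^ n) x) := by
      intro n
      induction n with
      | zero => intro x; simp
      | succ n ih =>
        intro x
        have h1 : (f' - μ • (1 : Module.End Ω (V ⧸ K))) (K.mkQ x) =
            K.mkQ ((f - μ • (1 : Module.End Ω V)) x) := by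
          rw [LinearMap.sub_apply, LinearMap.sub_apply, LinearMap.smul_apply,
            LinearMap.smul_apply, one_apply, one_apply, map_sub, map_smul, hf']
        rw [pow_succ, Module.End.mul_apply, h1, ih, pow_succ (f - μ • 1), Module.End.mul_apply]
    rw [key, hn, map_zero]
  have hmem : K.mkQ x ∈ sp f' A := by
    refine sp_induction (p := fun x => K.mkQ x ∈ sp f' A) (hUA hx)
      (fun ν hν x hx => gen_le_sp hν (hgen ν x hx)) (by rw [map_zero]; exact Submodule.zero_mem _)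
      (fun x y hx hy => by rw [map_add]; exact Submodule.add_mem _ hx hy)
  refine ⟨μ, eig_mem_of_sp hx0 hxe hmem, x, hx, fun h1 => hx0 ?_, ?_⟩
  · simpa using h1
  · rw [hf', ← map_smul, ← sub_eq_zero, ← map_sub, Submodule.mkQ_apply,
      Submodule.Quotient.mk_eq_zero] at hxe
    exact hxe

/-- Surjectivity below the middle. -/
theorem Lef.surj_of_le (hL : Lef f N S m) (h : Wt f N c S m) (hd : Dual f N d S m B) (k : ℕ)
    {u : ℤ} (hu : u ≤ m + k) {y : V} (hy : y ∈ sp f (S (u - 2 * k))) :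
    ∃ x ∈ sp f (S u), (N ^ k) x = y := by
  obtain ⟨j, hj⟩ : ∃ j : ℕ, (m : ℤ) - j = u - 2 * k := ⟨(m - u + 2 * k).toNat, by omega⟩
  rw [← hj] at hy
  obtain ⟨x, hx, rfl⟩ := hL.surj h hd j hy
  obtain ⟨i, rfl⟩ : ∃ i : ℕ, j = k + i := ⟨j - k, by omega⟩
  refine ⟨(N ^ i) x, ?_, by rw [← Module.End.mul_apply, ← pow_add]⟩
  have h1 := h.pow_sp i hx
  have h2 : (m : ℤ) + ((k + i : ℕ) : ℤ) - 2 * i = u := by push_cast at hj ⊢; linarith
  rwa [h2] at h1

/-- Injectivity above the middle. -/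
theorem Lef.inj_of_ge (hL : Lef f N S m) (h : Wt f N c S m) (k : ℕ)
    {u : ℤ} (hu : m + k ≤ u) {x : V} (hx : x ∈ sp f (S u)) (h0 : (N ^ k) x = 0) : x = 0 := by
  obtain ⟨j, rfl⟩ : ∃ j : ℕ, u = m + j := ⟨(u - m).toNat, by omega⟩
  exact hL.inj h j hx (pow_zero_of_le (by omega) h0)

/-- Under the monodromy-weight property the Jordan blocks of size `k` have top weight
`m + k - 1`. -/
theorem Lef.top_weight (hL : Lef f N S m) (h : Wt f N c S m) (hd : Dual f N d S m B) {k : ℕ}
    (hk : 1 ≤ k) {w : ℤ} {x : V} (hx : x ∈ sp f (S w)) (hN : (N ^ k) x = 0) (hK : x ∉ KK N k) :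
    w = m + k - 1 := by
  by_contra hne
  rcases lt_or_gt_of_ne hne with h1 | h1
  · -- small weight
    apply hK
    obtain ⟨k, rfl⟩ : ∃ i, k = i + 1 := ⟨k - 1, by omega⟩
    have e1 : (N ^ k) x ∈ sp f (S (w + 2 - 2 * ((k + 1 : ℕ) : ℤ))) := by
      have h2 := h.pow_sp k hx
      have h3 : w - 2 * (k : ℤ) = w + 2 - 2 * ((k + 1 : ℕ) : ℤ) := by push_cast; ring
      rwa [h3] at h2
    obtain ⟨z, -, hz⟩ := hL.surj_of_le h hd (k + 1) (u := w + 2)
      (by push_cast at h1 ⊢; omega) e1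
    refine mem_KK_iff.2 ⟨x - N z, z, ?_, ?_, by abel⟩
    · change (N ^ k) (x - N z) = 0
      rw [map_sub, ← Module.End.mul_apply (N ^ k) N, ← pow_succ, hz, sub_self]
    · rw [pow_succ', Module.End.mul_apply, hz, ← Module.End.mul_apply, ← pow_succ', hN]
  · have h2 := hL.inj_of_ge h k (by omega) hx hN
    exact hK (by rw [h2]; exact Submodule.zero_mem _)

/-- An eigenvalue on the multiplicity space comes from a generalized eigenvector. -/
theorem Wt.lift_eig (h : Wt f N c S m) {k : ℕ} {μ : Ω} {w : ℤ} (hμ : μ ∈ S w) {x : V}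
    (hN : (N ^ k) x = 0) (hK : x ∉ KK N k) (he : f x - μ • x ∈ KK N k) :
    ∃ a ∈ sp f (S w), (N ^ k) a = 0 ∧ a ∉ KK N k := by
  obtain ⟨a, ha, ha', b, hb, hb', rfl⟩ := stable_decomp (f := f)
    (U := LinearMap.ker (N ^ k)) (fun y hy => h.ker_stable _ hy) {μ} hN
  have hsub : sp f {μ} ≤ sp f (S w) := sp_mono (by simpa using hμ)
  refine ⟨a, hsub ha', ha, fun haK => hK ?_⟩
  refine Submodule.add_mem _ haK ?_
  -- the operator `f - μ` is bijective on the other part of `KK`
  obtain ⟨u, hu, hu', t, ht, ht', hut⟩ := stable_decomp (f := f) (U := KK N k)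
    (fun y hy => h.KK_stable hy) {μ} he
  have e1 : f b - μ • b = t := by
    have e2 : (f a - μ • a) + (f b - μ • b) = u + t := by
      rw [← hut, map_add, smul_add]; abel
    exact (sp_unique (Submodule.sub_mem _ (sp_stable ha') (Submodule.smul_mem _ _ ha')) hu'
      (Submodule.sub_mem _ (sp_stable hb') (Submodule.smul_mem _ _ hb')) ht' e2).2
  let U' : Submodule Ω V := KK N k ⊓ sp f {μ}ᶜ
  have hU' : ∀ y ∈ U', f y - μ • y ∈ U' := fun y hy =>
    ⟨Submodule.sub_mem _ (h.KK_stable hy.1) (Submodule.smul_mem _ _ hy.1),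
      Submodule.sub_mem _ (sp_stable hy.2) (Submodule.smul_mem _ _ hy.2)⟩
  have hzero : ∀ y ∈ sp f ({μ}ᶜ : Set Ω), f y - μ • y = 0 → y = 0 := by
    intro y hy hy0
    by_contra hne
    have := eig_mem_of_sp hne (sub_eq_zero.1 hy0) hy
    exact this (Set.mem_singleton μ)
  have hinj : Function.Injective ((f - μ • 1).restrict (p := U') (q := U') hU') := by
    rw [injective_iff_map_eq_zero]
    intro y hy
    exact Subtype.ext (hzero y y.2.2 (congrArg Subtype.val hy))
  obtain ⟨z, hz⟩ := LinearMap.injective_iff_surjective.1 hinj ⟨t, ht, ht'⟩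
  have hz' : f (z : V) - μ • (z : V) = t := congrArg Subtype.val hz
  have h2 : b - z = 0 := by
    refine hzero _ (Submodule.sub_mem _ hb' z.2.2) ?_
    have h3 : f (b - z) - μ • (b - (z : V)) = (f b - μ • b) - (f (z : V) - μ • (z : V)) := by
      rw [map_sub, smul_sub]; abel
    rw [h3, e1, hz', sub_self]
  rw [sub_eq_zero.1 h2]
  exact z.2.1

/-- Two classes of different weights in the multiplicity space. -/
theorem two_le (h : Wt f N c S m) {k : ℕ} (hk : 1 ≤ k) {w w' : ℤ} (hww : w ≠ w') {x y : V}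
    (hx : x ∈ sp f (S w)) (hxN : (N ^ k) x = 0) (hxK : x ∉ KK N k)
    (hy : y ∈ sp f (S w')) (hyN : (N ^ k) y = 0) (hyK : y ∉ KK N k) :
    finrank Ω (KK N k) + 2 ≤ finrank Ω (LinearMap.ker (N ^ k)) := by
  have hy' : y ∈ sp f (S w)ᶜ := sp_mono (h.compl_disj hww.symm) hy
  have hindep : ∀ α β : Ω, α • x + β • y ∈ KK N k → α = 0 ∧ β = 0 := by
    intro α β hab
    obtain ⟨a, ha, ha', b, hb, hb', he⟩ := stable_decomp (f := f) (U := KK N k)
      (fun z hz => h.KK_stable hz) (S w) hab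
    obtain ⟨e1, e2⟩ := sp_unique (Submodule.smul_mem _ α hx) ha' (Submodule.smul_mem _ β hy')
      hb' he
    constructor
    · by_contra hα
      apply hxK
      have h1 : x = α⁻¹ • a := by rw [← e1, smul_smul, inv_mul_cancel₀ hα, one_smul]
      rw [h1]
      exact Submodule.smul_mem _ _ ha
    · by_contra hβ
      apply hyK
      have h1 : y = β⁻¹ • b := by rw [← e2, smul_smul, inv_mul_cancel₀ hβ, one_smul]
      rw [h1]
      exact Submodule.smul_mem _ _ hb
  have hli : LinearIndependent Ω ![x, y] := by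
    rw [LinearIndependent.pair_iff]
    intro α β h0
    exact hindep α β (by rw [h0]; exact Submodule.zero_mem _)
  have h1 : finrank Ω (Submodule.span Ω (Set.range ![x, y])) = 2 := by
    rw [finrank_span_eq_card hli]
    simp
  have h2 : KK N k ⊓ Submodule.span Ω (Set.range ![x, y]) = ⊥ := by
    rw [eq_bot_iff]
    rintro z ⟨hz, hz'⟩
    rw [SetLike.mem_coe, Matrix.range_cons, Matrix.range_cons, Matrix.range_empty,
      Set.union_empty, Set.singleton_union, Submodule.mem_span_pair] at hz'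
    obtain ⟨α, β, rfl⟩ := hz'
    obtain ⟨rfl, rfl⟩ := hindep α β hz
    simp
  have h3 := Submodule.finrank_sup_add_finrank_inf_eq (KK N k)
    (Submodule.span Ω (Set.range ![x, y]))
  rw [h2, finrank_bot, h1, add_zero] at h3
  rw [← h3]
  refine Submodule.finrank_mono (sup_le (KK_le hk) ?_)
  rw [Submodule.span_le]
  rintro _ ⟨i, rfl⟩
  fin_cases i
  · exact hxN
  · exact hyN

end weights

end Pool.Agent.V8H91.MW
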