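import Mathlib
import Pool.Agent.V8H91.MW.Weil

/-!
# Irreducible representations of the Weil group with finite image of inertia
-/

set_option autoImplicit false
set_option linter.unusedSectionVars false

namespace Pool.Agent.V8H91.MW

open Module

/-- Two algebraic numbers with a common power have the same weight. -/
theorem weight_eq_of_pow {Ω : Type*} [Field Ω] [CharZero Ω] {q : ℕ} (hq : 1 < q) {n : ℤ}
    (hn : n ≠ 0) {w w' : ℤ} {μ μ' : Ω} (h : IsWeil q n w μ) (h' : IsWeil q n w' μ') {M : ℕ}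
    (hM : M ≠ 0) (he : μ ^ M = μ' ^ M) : w = w' := by
  have hq' : (1 : ℝ) < q := by exact_mod_cast hq
  let E := IntermediateField.adjoin ℚ ({μ, μ'} : Set Ω)
  have halg : Algebra.IsAlgebraic ℚ E := by
    apply IntermediateField.isAlgebraic_adjoin
    rintro x hx
    rcases hx with rfl | hx
    · exact h.1.isIntegral
    · rw [Set.mem_singleton_iff] at hx
      subst hx
      exact h'.1.isIntegral
  let σ : E →+* ℂ := (IsAlgClosed.lift (R := ℚ) (S := E) (M := ℂ) : E →ₐ[ℚ] ℂ).toRingHom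
  let a : E := ⟨μ, IntermediateField.subset_adjoin ℚ _ (Set.mem_insert _ _)⟩
  let b : E := ⟨μ', IntermediateField.subset_adjoin ℚ _ (Set.mem_insert_of_mem _ rfl)⟩
  have hroot : ∀ x : E, Polynomial.aeval (σ x) (minpoly ℚ (x : Ω)) = 0 := by
    intro x
    rw [aeval_hom]
    have h1 : Polynomial.aeval x (minpoly ℚ (x : Ω)) = 0 := by
      apply Subtype.ext
      have h2 := aeval_hom (algebraMap E Ω) x (minpoly ℚ (x : Ω))
      change ((Polynomial.aeval x (minpoly ℚ (x : Ω)) : E) : Ω) = 0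
      refine Eq.trans h2.symm ?_
      exact minpoly.aeval ℚ (x : Ω)
    rw [h1, map_zero]
  have h1 := h.2 _ (hroot a)
  have h2 := h'.2 _ (hroot b)
  have hab : a ^ M = b ^ M := Subtype.ext he
  have h3 : ‖σ a‖ ^ M = ‖σ b‖ ^ M := by
    rw [← norm_pow, ← norm_pow, ← map_pow, ← map_pow, hab]
  have h4 : ‖σ a‖ = ‖σ b‖ := (pow_left_inj₀ (norm_nonneg _) (norm_nonneg _) hM).1 h3
  rw [h1, h2] at h4
  have h5 := (Real.rpow_right_inj (by linarith) hq'.ne').1 h4
  have h6 : ((w * n : ℤ) : ℝ) = ((w' * n : ℤ) : ℝ) := by push_cast; linarith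
  have h7 : w * n = w' * n := by exact_mod_cast h6
  exact mul_right_cancel₀ hn h7

section schur

variable {Ω : Type*} [Field Ω] [IsAlgClosed Ω] {Q : Type*} [AddCommGroup Q] [Module Ω Q]
  [FiniteDimensional Ω Q] {W : Type*} [Group W] {v : W →* Multiplicative ℤ}
  (ρ : Representation Ω W Q)

theorem rho_mul_inv (g : W) : ρ g * ρ g⁻¹ = 1 := by
  rw [← map_mul, mul_inv_cancel, map_one]

theorem rho_inv_mul (g : W) : ρ g⁻¹ * ρ g = 1 := by
  rw [← map_mul, inv_mul_cancel, map_one]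

/-- Central operators are scalars. -/
theorem scalar_of_central [Nontrivial Q]
    (hirr : ∀ U : Submodule Ω Q, (∀ g, ∀ x ∈ U, ρ g x ∈ U) → U = ⊥ ∨ U = ⊤)
    {z : Module.End Ω Q} (hz : ∀ g, ρ g * z = z * ρ g) : ∃ a : Ω, z = a • 1 := by
  obtain ⟨a, ha⟩ := End.exists_eigenvalue z
  refine ⟨a, ?_⟩
  have hst : ∀ g, ∀ x ∈ End.eigenspace z a, ρ g x ∈ End.eigenspace z a := by
    intro g x hx
    rw [End.mem_eigenspace_iff] at hx ⊢
    have h1 := congrArg (fun f : Module.End Ω Q => f x) (hz g)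
    simp only [Module.End.mul_apply] at h1
    rw [← h1, hx, map_smul]
  rcases hirr _ hst with h | h
  · exact absurd h ha
  · refine LinearMap.ext fun x => ?_
    have hx : x ∈ End.eigenspace z a := by rw [h]; trivial
    rw [End.mem_eigenspace_iff] at hx
    rw [hx]
    rfl

/-- On an irreducible representation on which an open subgroup of inertia acts trivially every
element of the Weil group has a power which is a scalar. -/
theorem exists_pow_scalar [Nontrivial Q]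
    (hirr : ∀ U : Submodule Ω Q, (∀ g, ∀ x ∈ U, ρ g x ∈ U) → U = ⊥ ∨ U = ⊤)
    (hv : ∃ g, v g = Multiplicative.ofAdd 1)
    {I' : Subgroup W} (hfin : (I'.subgroupOf v.ker).FiniteIndex)
    (htriv : ∀ g ∈ I', ρ g = 1) {g : W} (hg : 0 < (v g).toAdd) :
    ∃ (M : ℕ) (a : Ω), M ≠ 0 ∧ (ρ g) ^ M = a • 1 := by
  classical
  obtain ⟨φ, hφ⟩ := hv
  -- the image of inertia is finite
  let F : Set (Module.End Ω Q) := Set.range fun i : v.ker => ρ i
  have hF : F.Finite := by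
    have h1 : Finite (v.ker ⧸ I'.subgroupOf v.ker) := inferInstance
    let s : (v.ker ⧸ I'.subgroupOf v.ker) → Module.End Ω Q :=
      fun x => ρ ((Quotient.out x : v.ker) : W)
    refine (Set.finite_range s).subset ?_
    rintro _ ⟨i, rfl⟩
    refine ⟨QuotientGroup.mk i, ?_⟩
    have h2 : (QuotientGroup.mk i : v.ker ⧸ I'.subgroupOf v.ker) =
        QuotientGroup.mk (Quotient.out (QuotientGroup.mk i : v.ker ⧸ I'.subgroupOf v.ker)) :=
      (QuotientGroup.out_eq' _).symm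
    rw [QuotientGroup.eq] at h2
    have h3 := htriv _ (Subgroup.mem_subgroupOf.1 h2)
    set o := Quotient.out (QuotientGroup.mk i : v.ker ⧸ I'.subgroupOf v.ker) with ho
    have h4 : ρ ((i : W)⁻¹ * (o : W)) = 1 := h3
    rw [map_mul] at h4
    change ρ (o : W) = ρ (i : W)
    calc ρ (o : W) = (ρ (i : W) * ρ (i : W)⁻¹) * ρ (o : W) := by rw [rho_mul_inv, one_mul]
      _ = ρ (i : W) * (ρ (i : W)⁻¹ * ρ (o : W)) := by rw [mul_assoc]
      _ = ρ (i : W) := by rw [h4, mul_one]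
  have hFf : Finite F := hF
  -- conjugation by `φ`
  have hconj : ∀ (h : W), ∀ x ∈ F, ρ h * x * ρ h⁻¹ ∈ F := by
    rintro h _ ⟨i, rfl⟩
    refine ⟨⟨h * i * h⁻¹, ?_⟩, ?_⟩
    · rw [MonoidHom.mem_ker, map_mul, map_mul, map_inv, i.2, mul_one, mul_inv_cancel]
    · change ρ (h * i * h⁻¹) = _
      rw [map_mul, map_mul]
  let T : Equiv.Perm F :=
    { toFun := fun x => ⟨ρ φ * x.1 * ρ φ⁻¹, hconj φ x.1 x.2⟩
      invFun := fun x => ⟨ρ φ⁻¹ * x.1 * ρ φ, by
        have := hconj φ⁻¹ x.1 x.2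
        rwa [inv_inv] at this⟩
      left_inv := fun x => Subtype.ext (by
        change ρ φ⁻¹ * (ρ φ * x.1 * ρ φ⁻¹) * ρ φ = x.1
        calc ρ φ⁻¹ * (ρ φ * x.1 * ρ φ⁻¹) * ρ φ
            = (ρ φ⁻¹ * ρ φ) * x.1 * (ρ φ⁻¹ * ρ φ) := by noncomm_ring
          _ = x.1 := by rw [rho_inv_mul, one_mul, mul_one])
      right_inv := fun x => Subtype.ext (by
        change ρ φ * (ρ φ⁻¹ * x.1 * ρ φ) * ρ φ⁻¹ = x.1
        calc ρ φ * (ρ φ⁻¹ * x.1 * ρ φ) * ρ φ⁻¹
            = (ρ φ * ρ φ⁻¹) * x.1 * (ρ φ * ρ φ⁻¹) := by noncomm_ring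
          _ = x.1 := by rw [rho_mul_inv, one_mul, mul_one]) }
  have hTpow : ∀ (k : ℕ) (x : F), ((T ^ k) x).1 * (ρ φ) ^ k = (ρ φ) ^ k * x.1 := by
    intro k
    induction k with
    | zero => intro x; simp
    | succ k ih =>
      intro x
      rw [pow_succ T, Equiv.Perm.mul_apply, pow_succ (ρ φ), ← mul_assoc, ih, mul_assoc, mul_assoc]
      congr 1
      change (ρ φ * x.1 * ρ φ⁻¹) * ρ φ = ρ φ * x.1
      rw [mul_assoc, rho_inv_mul, mul_one]
  obtain ⟨b, hb, hTb⟩ : ∃ b : ℕ, b ≠ 0 ∧ T ^ b = 1 := by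
    have := isOfFinOrder_of_finite T
    exact ⟨orderOf T, this.orderOf_pos.ne', pow_orderOf_eq_one T⟩
  have hcommF : ∀ x ∈ F, x * (ρ φ) ^ b = (ρ φ) ^ b * x := by
    intro x hx
    have h1 := hTpow b ⟨x, hx⟩
    rwa [hTb, Equiv.Perm.one_apply] at h1
  -- every element is the product of an element of inertia and a power of `φ`
  have hdec : ∀ (h : W) (k : ℕ), (v h).toAdd = k → ∃ x ∈ F, ρ h = x * (ρ φ) ^ k := by
    intro h k hk
    refine ⟨ρ (h * (φ ^ k)⁻¹), ⟨⟨h * (φ ^ k)⁻¹, ?_⟩, rfl⟩, ?_⟩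
    · rw [MonoidHom.mem_ker, map_mul, map_inv, map_pow, hφ]
      have h1 : v h = Multiplicative.ofAdd (k : ℤ) := by rw [← hk]; rfl
      rw [h1, ← ofAdd_nsmul, ← ofAdd_neg, ← ofAdd_add]
      simp
    · rw [← map_pow, ← map_mul, inv_mul_cancel_right]
  -- the power of `φ` is central
  have hcent : ∀ h, ρ h * (ρ φ) ^ b = (ρ φ) ^ b * ρ h := by
    have hpos : ∀ h, 0 ≤ (v h).toAdd → ρ h * (ρ φ) ^ b = (ρ φ) ^ b * ρ h := by
      intro h hh
      obtain ⟨k, hk⟩ := Int.eq_ofNat_of_zero_le hh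
      obtain ⟨x, hx, he⟩ := hdec h k hk
      rw [he, mul_assoc, ← pow_add, add_comm, pow_add, ← mul_assoc, hcommF x hx, mul_assoc]
    intro h
    rcases le_or_gt 0 (v h).toAdd with h1 | h1
    · exact hpos h h1
    · have h2 := hpos h⁻¹ (by rw [map_inv, toAdd_inv]; omega)
      calc ρ h * (ρ φ) ^ b = ρ h * ((ρ φ) ^ b * ρ h⁻¹) * ρ h := by
            rw [mul_assoc, mul_assoc, rho_inv_mul, mul_one]
        _ = ρ h * (ρ h⁻¹ * (ρ φ) ^ b) * ρ h := by rw [h2]
        _ = (ρ φ) ^ b * ρ h := by rw [← mul_assoc, rho_mul_inv, one_mul]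
  obtain ⟨a, ha⟩ := scalar_of_central ρ hirr hcent
  -- the power of `g`
  obtain ⟨n, hn⟩ := Int.eq_ofNat_of_zero_le hg.le
  have hgb : (v (g ^ b)).toAdd = ((n * b : ℕ) : ℤ) := by
    rw [map_pow, toAdd_pow, hn]
    push_cast
    rw [nsmul_eq_mul]
    ring
  obtain ⟨x, ⟨i, rfl⟩, he⟩ := hdec (g ^ b) (n * b) hgb
  have h1 : (ρ φ) ^ (n * b) = a ^ n • 1 := by
    rw [mul_comm n b, pow_mul, ha, smul_pow, one_pow]
  obtain ⟨M, hM0, -, hM⟩ := Subgroup.exists_pow_mem_of_index_ne_zero hfin.index_ne_zero i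
  have h2 : (ρ (i : W)) ^ M = 1 := by
    rw [← map_pow]
    exact htriv _ (Subgroup.mem_subgroupOf.1 hM)
  refine ⟨b * M, (a ^ n) ^ M, mul_ne_zero hb hM0.ne', ?_⟩
  rw [pow_mul, ← map_pow, he, h1]
  change (ρ (i : W) * a ^ n • 1) ^ M = _
  rw [mul_smul_comm, mul_one, smul_pow, h2]

/-- All eigenvalues of an element have a common power. -/
theorem exists_common_pow
    (hirr : ∀ U : Submodule Ω Q, (∀ g, ∀ x ∈ U, ρ g x ∈ U) → U = ⊥ ∨ U = ⊤)
    (hv : ∃ g, v g = Multiplicative.ofAdd 1)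
    {I' : Subgroup W} (hfin : (I'.subgroupOf v.ker).FiniteIndex)
    (htriv : ∀ g ∈ I', ρ g = 1) {g : W} (hg : 0 < (v g).toAdd) {μ μ' : Ω} {x y : Q}
    (hx0 : x ≠ 0) (hy0 : y ≠ 0) (hx : ρ g x = μ • x) (hy : ρ g y = μ' • y) :
    ∃ M : ℕ, M ≠ 0 ∧ μ ^ M = μ' ^ M := by
  have : Nontrivial Q := ⟨x, 0, hx0⟩
  obtain ⟨M, a, hM, ha⟩ := exists_pow_scalar ρ hirr hv hfin htriv hg
  have key : ∀ (μ : Ω) (x : Q), x ≠ 0 → ρ g x = μ • x → μ ^ M = a := by
    intro μ x h0 hx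
    have h1 : ∀ k : ℕ, ((ρ g) ^ k) x = μ ^ k • x := by
      intro k
      induction k with
      | zero => simp
      | succ k ih => rw [pow_succ', Module.End.mul_apply, ih, map_smul, hx, smul_smul, pow_succ]
    have h2 := h1 M
    rw [ha, LinearMap.smul_apply, Module.End.one_apply] at h2
    exact (smul_left_injective Ω h0 h2).symm
  exact ⟨M, hM, (key μ x hx0 hx).trans (key μ' y hy0 hy).symm⟩

end schur

end Pool.Agent.V8H91.MW
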