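import Mathlib
import Pool.Agent.V8H91.MW.Jordan
import Pool.Agent.V8H91.MW.Schur

/-!
# The criterion with Jordan blocks
-/

set_option autoImplicit false
set_option linter.unusedSectionVars false

namespace Pool.Agent.V8H91.MW

open Module

variable {Ω : Type*} [Field Ω] [CharZero Ω] [IsAlgClosed Ω] {V : Type*} [AddCommGroup V]
  [Module Ω V] [FiniteDimensional Ω V]
  {W : Type*} [Group W] {q : ℕ} {v : W →* Multiplicative ℤ} {ρ : Representation Ω W V}
  {N : Module.End Ω V} {m : ℕ}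

/-- If the monodromy-weight property fails then there are two eigenvalues of different weights on
some multiplicity space. -/
theorem exists_two (hq : 1 < q) (hv : ∃ g, v g = Multiplicative.ofAdd 1)
    (hV : IsGeometric q v ρ N m) (hE : KnownEdges q v ρ N m) (h : ¬ MonodromyWeight q v ρ N m) :
    ∃ (g : W) (k : ℕ) (w w' : ℤ) (μ μ' : Ω), 0 < (v g).toAdd ∧ 1 ≤ k ∧ k + 2 ≤ m ∧ w ≠ w' ∧
      JordanEigenvalue ρ N k g μ ∧ JordanEigenvalue ρ N k g μ' ∧
      IsWeil q (v g).toAdd w μ ∧ IsWeil q (v g).toAdd w' μ' := by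
  rw [mw_iff hq hv hV] at h
  push Not at h
  obtain ⟨g, hg, hL⟩ := h
  unfold Lef at hL
  push Not at hL
  obtain ⟨j, hj, μ₀, hμ₀, x₀, hx₀, hx₀e, hx₀N⟩ := hL
  have hW := wt_of_geometric hq hV hg
  obtain ⟨B, hB1, hB2, hB3⟩ := hV.duality
  have hD := dual_of_geometric (g := g) hq hB1 hB2 hB3
  obtain ⟨w, k, x, hk, hw2, hkw, hx, hxN, hxK⟩ := exists_bad hW (2 * m + (m + j)) (m + j)
    (by push_cast; omega) j x₀ hx₀ (gen_le_sp hμ₀ (mem_gen_of_eig hx₀e)) hx₀N (by omega)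
  have hx0 : x ≠ 0 := by
    rintro rfl
    exact hxK (Submodule.zero_mem _)
  -- the size of the block
  have hkm : k + 2 ≤ m := by
    by_contra hcon
    rcases hw2.lt_or_eq with h1 | h1
    · have h2 : w = 2 * m - 1 := by omega
      have h3 : 1 ≤ m := by omega
      apply hx0
      refine hW.inj_of_eig (m - 1) w (fun μ hμ y hy hye => ?_) hx
        (pow_zero_of_le (by omega) hxN)
      rw [h2] at hμ
      exact (hE g hg μ y hy hye).2 h3 hμ
    · apply hx0
      refine hW.inj_of_eig m w (fun μ hμ y hy hye => ?_) hx (pow_zero_of_le (by omega) hxN)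
      rw [h1] at hμ
      exact (hE g hg μ y hy hye).1 hμ
  obtain ⟨y, hy, hyN, hyK⟩ := exists_dual_bad hW hD hk hx hxN hxK
  set w' : ℤ := 2 * m - w + 2 * (k - 1) with hw'
  have hst : ∀ (u : ℤ), ∀ z ∈ LinearMap.ker (N ^ k) ⊓ sp (ρ g) (SS Ω q (v g).toAdd u),
      ρ g z ∈ LinearMap.ker (N ^ k) ⊓ sp (ρ g) (SS Ω q (v g).toAdd u) := fun u z hz =>
    ⟨hW.ker_stable k hz.1, sp_stable hz.2⟩
  obtain ⟨μ, hμ, a, ha, haK, hae⟩ := exists_eig_quot (hst w) (fun z hz => hW.KK_stable hz)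
    inf_le_right (fun hle => hxK (hle ⟨hxN, hx⟩))
  obtain ⟨μ', hμ', a', ha', haK', hae'⟩ := exists_eig_quot (hst w')
    (fun z hz => hW.KK_stable hz) inf_le_right (fun hle => hyK (hle ⟨hyN, hy⟩))
  exact ⟨g, k, w, w', μ, μ', hg, hk, hkm, by omega, ⟨a, ha.1, haK, hae⟩, ⟨a', ha'.1, haK', hae'⟩,
    hμ, hμ'⟩

/-- The monodromy-weight property is equivalent to the isobaricity of the multiplicity spaces. -/
theorem isobaric_iff (hq : 1 < q) (hv : ∃ g, v g = Multiplicative.ofAdd 1)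
    (hV : IsGeometric q v ρ N m) (hE : KnownEdges q v ρ N m) :
    MonodromyWeight q v ρ N m ↔ ∀ k : ℕ, 1 ≤ k → k + 2 ≤ m → Isobaric q v ρ N k := by
  constructor
  · rw [mw_iff hq hv hV]
    intro hL k hk _ g hg μ μ' hμ hμ' w w' hw hw'
    have hW := wt_of_geometric hq hV hg
    obtain ⟨B, hB1, hB2, hB3⟩ := hV.duality
    have hD := dual_of_geometric (g := g) hq hB1 hB2 hB3
    have key : ∀ (μ : Ω) (w : ℤ), JordanEigenvalue ρ N k g μ → IsWeil q (v g).toAdd w μ →
        w = m + k - 1 := by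
      rintro μ w ⟨x, hxN, hxK, hxe⟩ hw
      obtain ⟨a, ha, haN, haK⟩ := hW.lift_eig (S := SS Ω q (v g).toAdd) hw hxN hxK hxe
      exact (hL g hg).top_weight hW hD hk ha haN haK
    rw [key μ w hμ hw, key μ' w' hμ' hw']
  · intro h
    by_contra hcon
    obtain ⟨g, k, w, w', μ, μ', hg, hk, hkm, hne, h1, h2, h3, h4⟩ := exists_two hq hv hV hE hcon
    exact hne (h k hk hkm g hg μ μ' h1 h2 w w' h3 h4)

section quot

variable (ρ N)

theorem ker_pow_stable (hN : ∀ g x, N (ρ g x) = (q : Ω) ^ (v g).toAdd • ρ g (N x)) (k : ℕ) (g : W)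
    {x : V} (hx : (N ^ k) x = 0) : (N ^ k) (ρ g x) = 0 := by
  have key : ∀ (k : ℕ) (x : V), (N ^ k) (ρ g x) =
      ((q : Ω) ^ (v g).toAdd) ^ k • ρ g ((N ^ k) x) := by
    intro k
    induction k with
    | zero => intro x; simp
    | succ k ih =>
      intro x
      rw [pow_succ N, Module.End.mul_apply, Module.End.mul_apply, hN, map_smul, ih, smul_smul,
        pow_succ, mul_comm]
  rw [key, hx, map_zero, smul_zero]

theorem KK_stable' (hq : 1 < q)
    (hN : ∀ g x, N (ρ g x) = (q : Ω) ^ (v g).toAdd • ρ g (N x)) (k : ℕ) (g : W)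
    {x : V} (hx : x ∈ KK N k) : ρ g x ∈ KK N k := by
  obtain ⟨a, b, ha, hb, rfl⟩ := mem_KK_iff.1 hx
  have h1 : ρ g (N b) = N (((q : Ω) ^ (v g).toAdd)⁻¹ • ρ g b) := by
    rw [map_smul, hN, smul_smul, inv_mul_cancel₀ (qpow_ne hq _), one_smul]
  refine mem_KK_iff.2 ⟨ρ g a, ((q : Ω) ^ (v g).toAdd)⁻¹ • ρ g b,
    ker_pow_stable ρ N hN _ g ha, ?_, ?_⟩
  · rw [map_smul, ker_pow_stable ρ N hN _ g hb, smul_zero]
  · rw [map_add, h1]

/-- The multiplicity space. -/
abbrev QQ (k : ℕ) : Type _ :=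
  LinearMap.ker (N ^ k) ⧸ (KK N k).comap (LinearMap.ker (N ^ k)).subtype

/-- The representation on the multiplicity space. -/
def ρQ (hq : 1 < q) (hN : ∀ g x, N (ρ g x) = (q : Ω) ^ (v g).toAdd • ρ g (N x)) (k : ℕ) :
    Representation Ω W (QQ N k) where
  toFun g := Submodule.mapQ _ _
    ((ρ g).restrict (p := LinearMap.ker (N ^ k)) (q := LinearMap.ker (N ^ k))
      (fun _ hx => ker_pow_stable ρ N hN k g hx))
    (fun _ hx => KK_stable' ρ N hq hN k g hx)
  map_one' := by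
    refine LinearMap.ext fun x => ?_
    obtain ⟨x, rfl⟩ := Submodule.Quotient.mk_surjective _ x
    refine congrArg Submodule.Quotient.mk (Subtype.ext ?_)
    change ρ 1 (x : V) = (x : V)
    rw [map_one]
    rfl
  map_mul' := by
    intro g h
    refine LinearMap.ext fun x => ?_
    obtain ⟨x, rfl⟩ := Submodule.Quotient.mk_surjective _ x
    refine congrArg Submodule.Quotient.mk (Subtype.ext ?_)
    change ρ (g * h) (x : V) = ρ g (ρ h (x : V))
    rw [map_mul]
    rfl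

end quot

/-- Irreducible multiplicity spaces are isobaric. -/
theorem isobaric_of_irreducible (hq : 1 < q) (hv : ∃ g, v g = Multiplicative.ofAdd 1)
    (hV : IsGeometric q v ρ N m) (hG : GrothendieckMonodromy v ρ N) {k : ℕ} (hk : 1 ≤ k)
    (hirr : ZeroOrIrreducible ρ N k) : Isobaric q v ρ N k := by
  intro g hg μ μ' hμ hμ' w w' hw hw'
  obtain ⟨x, hxN, hxK, hxe⟩ := hμ
  obtain ⟨y, hyN, hyK, hye⟩ := hμ'
  have hN := hV.equivariant
  obtain ⟨I', -, hfin, hI'⟩ := hG
  let K' := (KK N k).comap (LinearMap.ker (N ^ k)).subtype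
  let ρ' : Representation Ω W (QQ N k) := ρQ ρ N hq hN k
  have hρ' : ∀ g (x : LinearMap.ker (N ^ k)), ρ' g (Submodule.Quotient.mk x) =
      Submodule.Quotient.mk ((ρ g).restrict (p := LinearMap.ker (N ^ k))
        (q := LinearMap.ker (N ^ k)) (fun _ hx => ker_pow_stable ρ N hN k g hx) x) :=
    fun g x => rfl
  -- irreducibility
  have hirr' : ∀ U : Submodule Ω (QQ N k), (∀ g, ∀ x ∈ U, ρ' g x ∈ U) → U = ⊥ ∨ U = ⊤ := by
    intro U hU
    let U' : Submodule Ω V := (U.comap K'.mkQ).map (LinearMap.ker (N ^ k)).subtype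
    have hmem : ∀ z : LinearMap.ker (N ^ k), (z : V) ∈ U' ↔ K'.mkQ z ∈ U := by
      intro z
      constructor
      · rintro ⟨z', hz', he⟩
        have : z' = z := Subtype.ext he
        rw [← this]
        exact hz'
      · intro h
        exact ⟨z, h, rfl⟩
    have h1 : KK N k ≤ U' := by
      intro z hz
      have h2 : (⟨z, KK_le hk hz⟩ : LinearMap.ker (N ^ k)) ∈ K' := hz
      refine (hmem ⟨z, KK_le hk hz⟩).2 ?_
      rw [Submodule.mkQ_apply, (Submodule.Quotient.mk_eq_zero _).2 h2]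
      exact Submodule.zero_mem _
    have h2 : U' ≤ LinearMap.ker (N ^ k) := by
      rintro _ ⟨z, -, rfl⟩
      exact z.2
    have h3 : ∀ g, ∀ z ∈ U', ρ g z ∈ U' := by
      rintro g _ ⟨z, hz, rfl⟩
      exact ⟨_, hU g _ hz, rfl⟩
    rcases hirr U' h1 h2 h3 with h4 | h4
    · left
      rw [eq_bot_iff]
      intro z hz
      obtain ⟨z, rfl⟩ := Submodule.Quotient.mk_surjective _ z
      rw [Submodule.mem_bot, Submodule.Quotient.mk_eq_zero]
      have h5 : (z : V) ∈ U' := (hmem z).2 hz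
      rw [h4] at h5
      exact h5
    · right
      rw [eq_top_iff]
      intro z _
      obtain ⟨z, rfl⟩ := Submodule.Quotient.mk_surjective _ z
      refine (hmem z).1 ?_
      rw [h4]
      exact z.2
  -- the subgroup acts trivially
  have htriv : ∀ g ∈ I', ρ' g = 1 := by
    intro g hg
    obtain ⟨t, ht⟩ := hI' g hg
    refine LinearMap.ext fun z => ?_
    obtain ⟨z, rfl⟩ := Submodule.Quotient.mk_surjective _ z
    rw [hρ', Module.End.one_apply, Submodule.Quotient.eq]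
    change ρ g (z : V) - (z : V) ∈ KK N k
    refine mem_KK_iff.2 ⟨ρ g z - z, 0, ?_, by rw [map_zero], by rw [map_zero, add_zero]⟩
    have hz : (N ^ k) (z : V) = 0 := z.2
    have hpos : 0 < finrank Ω V ∨ finrank Ω V = 0 := by omega
    rcases hpos with h0 | h0
    · obtain ⟨n, hn⟩ : ∃ n, finrank Ω V = n + 1 := ⟨finrank Ω V - 1, by omega⟩
      rw [ht, hn, Finset.sum_range_succ']
      simp only [pow_zero, Nat.factorial_zero, Nat.cast_one, inv_one, mul_one, one_smul]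
      rw [LinearMap.add_apply, Module.End.one_apply, add_sub_cancel_right, LinearMap.sum_apply,
        map_sum]
      refine Finset.sum_eq_zero fun i _ => ?_
      rw [LinearMap.smul_apply, map_smul, ← Module.End.mul_apply, ← pow_add,
        pow_zero_of_le (by omega) hz, smul_zero]
    · have : Subsingleton V := finrank_zero_iff.1 h0
      exact Subsingleton.elim _ _
  -- eigenvectors in the quotient
  have hne : ∀ (x : V) (hx : (N ^ k) x = 0), x ∉ KK N k →
      (Submodule.Quotient.mk (⟨x, hx⟩ : LinearMap.ker (N ^ k)) : QQ N k) ≠ 0 := by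
    intro x hx hxK h0
    rw [Submodule.Quotient.mk_eq_zero] at h0
    exact hxK h0
  have heig : ∀ (x : V) (μ : Ω) (hx : (N ^ k) x = 0), ρ g x - μ • x ∈ KK N k →
      ρ' g (Submodule.Quotient.mk (⟨x, hx⟩ : LinearMap.ker (N ^ k)) : QQ N k) =
        μ • (Submodule.Quotient.mk (⟨x, hx⟩ : LinearMap.ker (N ^ k)) : QQ N k) := by
    intro x μ hx hxe
    rw [hρ', ← Submodule.Quotient.mk_smul, Submodule.Quotient.eq]
    exact hxe
  obtain ⟨M, hM, hpow⟩ := exists_common_pow ρ' hirr' hv hfin htriv hg (hne x hxN hxK)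
    (hne y hyN hyK) (heig x μ hxN hxe) (heig y μ' hyN hye)
  exact weight_eq_of_pow hq hg.ne' hw hw' hM hpow

/-- At most one Jordan block of each small size. -/
theorem mw_of_blocks (hq : 1 < q) (hv : ∃ g, v g = Multiplicative.ofAdd 1)
    (hV : IsGeometric q v ρ N m) (hE : KnownEdges q v ρ N m)
    (hJ : ∀ k : ℕ, 1 ≤ k → k + 2 ≤ m → 2 * finrank Ω (LinearMap.ker (N ^ k)) ≤
      finrank Ω (LinearMap.ker (N ^ (k - 1))) + finrank Ω (LinearMap.ker (N ^ (k + 1))) + 1) :
    MonodromyWeight q v ρ N m := by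
  by_contra hcon
  obtain ⟨g, k, w, w', μ, μ', hg, hk, hkm, hne, ⟨x, hxN, hxK, hxe⟩, ⟨y, hyN, hyK, hye⟩, h3, h4⟩ :=
    exists_two hq hv hV hE hcon
  have hW := wt_of_geometric hq hV hg
  obtain ⟨a, ha, haN, haK⟩ := hW.lift_eig (S := SS Ω q (v g).toAdd) h3 hxN hxK hxe
  obtain ⟨b, hb, hbN, hbK⟩ := hW.lift_eig (S := SS Ω q (v g).toAdd) h4 hyN hyK hye
  have h5 := two_le hW hk hne ha haN haK hb hbN hbK
  have h6 := finrank_KK N hk
  have h7 := hJ k hk hkm
  omega

/-- The final statement. -/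
theorem jordan_criterion (hq : 1 < q) (hv : ∃ g, v g = Multiplicative.ofAdd 1)
    (hV : IsGeometric q v ρ N m) (hE : KnownEdges q v ρ N m) :
    (MonodromyWeight q v ρ N m ↔ ∀ k : ℕ, 1 ≤ k → k + 2 ≤ m → Isobaric q v ρ N k) ∧
    (GrothendieckMonodromy v ρ N → (∀ k : ℕ, 1 ≤ k → k + 2 ≤ m → ZeroOrIrreducible ρ N k) →
      MonodromyWeight q v ρ N m) ∧
    ((∀ k : ℕ, 1 ≤ k → k + 2 ≤ m → 2 * finrank Ω (LinearMap.ker (N ^ k)) ≤
      finrank Ω (LinearMap.ker (N ^ (k - 1))) + finrank Ω (LinearMap.ker (N ^ (k + 1))) + 1) →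
      MonodromyWeight q v ρ N m) :=
  ⟨isobaric_iff hq hv hV hE, fun hG hirr => (isobaric_iff hq hv hV hE).2 fun k hk hkm =>
    isobaric_of_irreducible hq hv hV hG hk (hirr k hk hkm), mw_of_blocks hq hv hV hE⟩

end Pool.Agent.V8H91.MW
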